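import Mathlib

/-!
# Augmentation powers of group algebras of locally free groups

For a subgroup `B` of a group `N` we consider, inside the group algebra `F[N]`, the span `AlgS B` of
`B`, the span `Del B` of the elements `b - 1` and the powers `J B k = AlgS B * (Del B)^k`.
If `N` is locally free, `F[N]` behaves modulo the powers of the augmentation ideal as a free algebra.
-/

open Submodule

namespace Pool.Agent.H91

noncomputable section

variable {N : Type*} [Group N] (F : Type*) [Field F]

/-- The span of the subgroup `B` in the group algebra. -/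
def AlgS (B : Subgroup N) : Submodule F (MonoidAlgebra F N) :=
  span F {x | ∃ b ∈ B, x = MonoidAlgebra.of F N b}

/-- The span of the elements `b - 1`, `b ∈ B`, in the group algebra. -/
def Del (B : Subgroup N) : Submodule F (MonoidAlgebra F N) :=
  span F {x | ∃ b ∈ B, x = MonoidAlgebra.of F N b - 1}

/-- `J B k = AlgS B * (Del B)^k`. -/
def J (B : Subgroup N) : ℕ → Submodule F (MonoidAlgebra F N)
  | 0 => AlgS F B
  | k + 1 => J B k * Del F B

variable {F}

theorem of_mem_algS {B : Subgroup N} {b : N} (hb : b ∈ B) :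
    MonoidAlgebra.of F N b ∈ AlgS F B := subset_span ⟨b, hb, rfl⟩

theorem one_mem_algS (B : Subgroup N) : (1 : MonoidAlgebra F N) ∈ AlgS F B := by
  have := of_mem_algS (F := F) B.one_mem
  rwa [map_one] at this

theorem sub_one_mem_del {B : Subgroup N} {b : N} (hb : b ∈ B) :
    MonoidAlgebra.of F N b - 1 ∈ Del F B := subset_span ⟨b, hb, rfl⟩

theorem del_le_algS (B : Subgroup N) : Del F B ≤ AlgS F B := by
  refine span_le.2 ?_
  rintro _ ⟨b, hb, rfl⟩
  exact sub_mem (of_mem_algS hb) (one_mem_algS B)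

theorem algS_mul_algS (B : Subgroup N) : AlgS F B * AlgS F B ≤ AlgS F B := by
  rw [AlgS, span_mul_span]
  refine span_le.2 ?_
  rintro _ ⟨_, ⟨b, hb, rfl⟩, _, ⟨c, hc, rfl⟩, rfl⟩
  dsimp only
  rw [← map_mul]
  exact of_mem_algS (B.mul_mem hb hc)

theorem del_mul_algS (B : Subgroup N) : Del F B * AlgS F B ≤ Del F B := by
  rw [Del, AlgS, span_mul_span]
  refine span_le.2 ?_
  rintro _ ⟨_, ⟨b, hb, rfl⟩, _, ⟨c, hc, rfl⟩, rfl⟩
  have : (MonoidAlgebra.of F N b - 1) * MonoidAlgebra.of F N c =
      (MonoidAlgebra.of F N (b * c) - 1) - (MonoidAlgebra.of F N c - 1) := by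
    rw [map_mul]; noncomm_ring
  dsimp only
  rw [this]
  exact sub_mem (sub_one_mem_del (B.mul_mem hb hc)) (sub_one_mem_del hc)

theorem algS_mul_del (B : Subgroup N) : AlgS F B * Del F B ≤ Del F B := by
  rw [Del, AlgS, span_mul_span]
  refine span_le.2 ?_
  rintro _ ⟨_, ⟨b, hb, rfl⟩, _, ⟨c, hc, rfl⟩, rfl⟩
  have : MonoidAlgebra.of F N b * (MonoidAlgebra.of F N c - 1) =
      (MonoidAlgebra.of F N (b * c) - 1) - (MonoidAlgebra.of F N b - 1) := by
    rw [map_mul]; noncomm_ring
  dsimp only
  rw [this]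
  exact sub_mem (sub_one_mem_del (B.mul_mem hb hc)) (sub_one_mem_del hb)

theorem J_mul_algS (B : Subgroup N) (k : ℕ) : J F B k * AlgS F B ≤ J F B k := by
  cases k with
  | zero => exact algS_mul_algS B
  | succ k =>
    calc J F B k * Del F B * AlgS F B = J F B k * (Del F B * AlgS F B) := mul_assoc _ _ _
      _ ≤ J F B k * Del F B := mul_le_mul_right (del_mul_algS B) _

theorem algS_mul_J (B : Subgroup N) (k : ℕ) : AlgS F B * J F B k ≤ J F B k := by
  induction k with
  | zero => exact algS_mul_algS B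
  | succ k ih =>
    calc AlgS F B * (J F B k * Del F B) = AlgS F B * J F B k * Del F B := (mul_assoc _ _ _).symm
      _ ≤ J F B k * Del F B := mul_le_mul_left ih _

theorem J_succ_le (B : Subgroup N) (k : ℕ) : J F B (k + 1) ≤ J F B k :=
  (mul_le_mul_right (del_le_algS B) _).trans (J_mul_algS B k)

theorem J_antitone (B : Subgroup N) : Antitone (J F B) := antitone_nat_of_succ_le (J_succ_le B)

theorem J_one (B : Subgroup N) : J F B 1 = Del F B := by
  apply le_antisymm
  · exact algS_mul_del B
  · intro x hx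
    have := mul_mem_mul (one_mem_algS (F := F) B) hx
    rwa [one_mul] at this

theorem algS_mono {B C : Subgroup N} (h : B ≤ C) : AlgS F B ≤ AlgS F C := by
  refine span_le.2 ?_
  rintro _ ⟨b, hb, rfl⟩
  exact of_mem_algS (h hb)

theorem del_mono {B C : Subgroup N} (h : B ≤ C) : Del F B ≤ Del F C := by
  refine span_le.2 ?_
  rintro _ ⟨b, hb, rfl⟩
  exact sub_one_mem_del (h hb)

theorem J_mono {B C : Subgroup N} (h : B ≤ C) (k : ℕ) : J F B k ≤ J F C k := by
  induction k with
  | zero => exact algS_mono h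
  | succ k ih => exact mul_le_mul' ih (del_mono h)

theorem algS_top : AlgS F (⊤ : Subgroup N) = ⊤ := by
  rw [eq_top_iff]
  intro x _
  induction x using MonoidAlgebra.induction_on with
  | of m => exact of_mem_algS (Subgroup.mem_top m)
  | add x y hx hy => exact add_mem (hx trivial) (hy trivial)
  | smul r x hx => exact smul_mem _ _ (hx trivial)

theorem mul_mem_J {k : ℕ} {a : MonoidAlgebra F N} (ha : a ∈ J F (⊤ : Subgroup N) k)
    (b : MonoidAlgebra F N) : a * b ∈ J F (⊤ : Subgroup N) k :=
  J_mul_algS _ _ (mul_mem_mul ha (by rw [algS_top]; trivial))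

theorem mul_mem_J' {k : ℕ} (b : MonoidAlgebra F N) {a : MonoidAlgebra F N}
    (ha : a ∈ J F (⊤ : Subgroup N) k) : b * a ∈ J F (⊤ : Subgroup N) k :=
  algS_mul_J _ _ (mul_mem_mul (by rw [algS_top]; trivial) ha)

theorem J_mul_del_mul_J (B : Subgroup N) (j k : ℕ) : J F B j * J F B k ≤ J F B (j + k) := by
  induction k with
  | zero => exact J_mul_algS B j
  | succ k ih =>
    calc J F B j * (J F B k * Del F B) = J F B j * J F B k * Del F B := (mul_assoc _ _ _).symm
      _ ≤ J F B (j + k) * Del F B := mul_le_mul_left ih _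

theorem exists_fg_mem_J (k : ℕ) (a : MonoidAlgebra F N) (ha : a ∈ J F (⊤ : Subgroup N) k) :
    ∃ B : Subgroup N, B.FG ∧ a ∈ J F B k := by
  induction k generalizing a with
  | zero =>
    clear ha
    induction a using MonoidAlgebra.induction_on with
    | of m =>
      exact ⟨Subgroup.closure {m}, ⟨{m}, by simp⟩, of_mem_algS (Subgroup.subset_closure rfl)⟩
    | add x y hx hy =>
      obtain ⟨B, hB, hx⟩ := hx
      obtain ⟨C, hC, hy⟩ := hy
      exact ⟨B ⊔ C, hB.sup hC, add_mem (J_mono le_sup_left 0 hx) (J_mono le_sup_right 0 hy)⟩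
    | smul r x hx =>
      obtain ⟨B, hB, hx⟩ := hx
      exact ⟨B, hB, smul_mem _ _ hx⟩
  | succ k ih =>
    change a ∈ J F ⊤ k * Del F ⊤ at ha
    induction ha using Submodule.mul_induction_on' with
    | mem_mul_mem m hm n hn =>
      obtain ⟨B, hB, hm'⟩ := ih m hm
      have h2 : ∃ C : Subgroup N, C.FG ∧ n ∈ Del F C := by
        clear hm hm' hB
        induction hn using span_induction with
        | mem x hx =>
          obtain ⟨b, -, rfl⟩ := hx
          exact ⟨Subgroup.closure {b}, ⟨{b}, by simp⟩,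
            sub_one_mem_del (Subgroup.subset_closure rfl)⟩
        | zero => exact ⟨⊥, ⟨∅, by simp⟩, zero_mem _⟩
        | add x y _ _ hx hy =>
          obtain ⟨B, hB, hx⟩ := hx
          obtain ⟨C, hC, hy⟩ := hy
          exact ⟨B ⊔ C, hB.sup hC, add_mem (del_mono le_sup_left hx) (del_mono le_sup_right hy)⟩
        | smul r x _ hx =>
          obtain ⟨B, hB, hx⟩ := hx
          exact ⟨B, hB, smul_mem _ _ hx⟩
      obtain ⟨C, hC, hn'⟩ := h2
      exact ⟨B ⊔ C, hB.sup hC, mul_mem_mul (J_mono le_sup_left k hm')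
        (del_mono le_sup_right hn')⟩
    | add x _ y _ hx hy =>
      obtain ⟨B, hB, hx⟩ := hx
      obtain ⟨C, hC, hy⟩ := hy
      exact ⟨B ⊔ C, hB.sup hC, add_mem (J_mono le_sup_left _ hx) (J_mono le_sup_right _ hy)⟩

/-- The affine permutation `a ↦ g * a + c` of the group algebra. -/
def affinePerm (g : N) (c : MonoidAlgebra F N) : Equiv.Perm (MonoidAlgebra F N) where
  toFun a := MonoidAlgebra.of F N g * a + c
  invFun a := MonoidAlgebra.of F N g⁻¹ * (a - c)
  left_inv a := by
    dsimp only
    rw [add_sub_cancel_right, ← mul_assoc, ← map_mul, inv_mul_cancel, map_one, one_mul]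
  right_inv a := by
    dsimp only
    rw [← mul_assoc, ← map_mul, mul_inv_cancel, map_one, one_mul, sub_add_cancel]

/-- Existence of Fox derivations with prescribed augmentation on a free subgroup. -/
theorem exists_derivation (B : Subgroup N) [hB : IsFreeGroup B] (h : N →* Multiplicative F) :
    ∃ D : MonoidAlgebra F N →ₗ[F] MonoidAlgebra F N,
      (∀ a ∈ AlgS F B, ∀ x ∈ B, D (a * (MonoidAlgebra.of F N x - 1)) =
        a * D (MonoidAlgebra.of F N x - 1)) ∧
      (∀ x ∈ B, D (MonoidAlgebra.of F N x - 1) - algebraMap F (MonoidAlgebra F N) (h x).toAdd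
        ∈ Del F B) := by
  classical
  obtain ⟨ι, ⟨b⟩⟩ := hB.nonempty_basis
  let e : FreeGroup ι ≃* B := b.repr.symm
  let ρ : FreeGroup ι →* Equiv.Perm (MonoidAlgebra F N) :=
    FreeGroup.lift (fun i => affinePerm (e (FreeGroup.of i) : N)
      (algebraMap F (MonoidAlgebra F N) (h (e (FreeGroup.of i))).toAdd))
  have hρ1 : ∀ w : FreeGroup ι, ∀ a, ρ w a = MonoidAlgebra.of F N (e w) * a + ρ w 0 := by
    intro w
    induction w using FreeGroup.induction_on with
    | C1 =>
      intro a
      rw [map_one, map_one, Equiv.Perm.one_apply, Equiv.Perm.one_apply, Subgroup.coe_one, map_one,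
        one_mul, add_zero]
    | of i => intro a; simp [ρ, affinePerm]
    | inv_of i _ =>
      intro a
      have h1 : ρ (FreeGroup.of i)⁻¹ = (affinePerm (e (FreeGroup.of i) : N)
        (algebraMap F (MonoidAlgebra F N) (h (e (FreeGroup.of i))).toAdd)).symm := by
        rw [map_inv]; simp [ρ]; rfl
      have h2 : ∀ a, ρ (FreeGroup.of i)⁻¹ a = MonoidAlgebra.of F N ((e (FreeGroup.of i) : N)⁻¹) *
          (a - (algebraMap F (MonoidAlgebra F N) (h (e (FreeGroup.of i))).toAdd)) := by
        intro a; rw [h1]; rfl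
      have h3 : (e (FreeGroup.of i)⁻¹ : N) = (e (FreeGroup.of i) : N)⁻¹ := by
        rw [map_inv, Subgroup.coe_inv]
      rw [h2, h2, h3]
      noncomm_ring
    | mul x y hx hy =>
      intro a
      rw [map_mul, Equiv.Perm.mul_apply, Equiv.Perm.mul_apply, hx, hy, hx (ρ y 0), map_mul,
        Subgroup.coe_mul, map_mul]
      noncomm_ring
  have hmul : ∀ v w : FreeGroup ι, ρ (v * w) 0 = MonoidAlgebra.of F N (e v) * ρ w 0 + ρ v 0 := by
    intro v w
    rw [map_mul, Equiv.Perm.mul_apply, hρ1 v]
  have hρ2 : ∀ w : FreeGroup ι,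
      ρ w 0 - algebraMap F (MonoidAlgebra F N) (h (e w)).toAdd ∈ Del F B := by
    intro w
    induction w using FreeGroup.induction_on with
    | C1 => simp
    | of i => simp [ρ, affinePerm]
    | inv_of i ih =>
      have h1 := hmul (FreeGroup.of i)⁻¹ (FreeGroup.of i)
      rw [inv_mul_cancel, map_one] at h1
      have h2 : ρ (FreeGroup.of i)⁻¹ 0 =
          - (MonoidAlgebra.of F N (e (FreeGroup.of i)⁻¹) * ρ (FreeGroup.of i) 0) := by
        have : (1 : Equiv.Perm (MonoidAlgebra F N)) 0 = 0 := rfl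
        rw [this] at h1
        exact (neg_eq_of_add_eq_zero_right h1.symm).symm
      rw [h2]
      have h3 : (h (e (FreeGroup.of i)⁻¹)).toAdd = - (h (e (FreeGroup.of i))).toAdd := by
        rw [map_inv, Subgroup.coe_inv, map_inv]; rfl
      rw [h3, map_neg]
      set c := algebraMap F (MonoidAlgebra F N) (h (e (FreeGroup.of i))).toAdd with hc
      have h4 : -(MonoidAlgebra.of F N (e (FreeGroup.of i)⁻¹) * ρ (FreeGroup.of i) 0) - -c =
          -(MonoidAlgebra.of F N (e (FreeGroup.of i)⁻¹) * (ρ (FreeGroup.of i) 0 - c)) -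
          (MonoidAlgebra.of F N (e (FreeGroup.of i)⁻¹) - 1) * c := by
        noncomm_ring
      rw [h4]
      refine sub_mem (neg_mem ?_) ?_
      · exact algS_mul_del B (mul_mem_mul (of_mem_algS (e _).2) ih)
      · rw [← Algebra.commutes, ← Algebra.smul_def]
        exact smul_mem _ _ (sub_one_mem_del (e _).2)
    | mul x y hx hy =>
      rw [hmul]
      have h3 : (h (e (x * y))).toAdd = (h (e x)).toAdd + (h (e y)).toAdd := by
        rw [map_mul, Subgroup.coe_mul, map_mul]; rfl
      rw [h3, map_add]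
      set c := algebraMap F (MonoidAlgebra F N) (h (e x)).toAdd with hc
      set d := algebraMap F (MonoidAlgebra F N) (h (e y)).toAdd with hd
      have h4 : MonoidAlgebra.of F N (e x) * ρ y 0 + ρ x 0 - (c + d) =
          MonoidAlgebra.of F N (e x) * (ρ y 0 - d) + (ρ x 0 - c) +
          (MonoidAlgebra.of F N (e x) - 1) * d := by
        noncomm_ring
      rw [h4]
      refine add_mem (add_mem ?_ hx) ?_
      · exact algS_mul_del B (mul_mem_mul (of_mem_algS (e _).2) hy)
      · rw [← Algebra.commutes, ← Algebra.smul_def]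
        exact smul_mem _ _ (sub_one_mem_del (e _).2)
  -- the derivation
  let d : N → MonoidAlgebra F N := fun n => if hn : n ∈ B then ρ (e.symm ⟨n, hn⟩) 0 else 0
  have hd : ∀ x y, x ∈ B → y ∈ B → d (x * y) = MonoidAlgebra.of F N x * d y + d x := by
    intro x y hx hy
    have hxy := B.mul_mem hx hy
    simp only [d, hx, hy, hxy, dif_pos]
    have : e.symm ⟨x * y, hxy⟩ = e.symm ⟨x, hx⟩ * e.symm ⟨y, hy⟩ := by
      rw [← map_mul]; rfl
    rw [this, hmul]
    simp
  let D : MonoidAlgebra F N →ₗ[F] MonoidAlgebra F N :=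
    (Finsupp.linearCombination F d).comp (MonoidAlgebra.coeffLinearEquiv F).toLinearMap
  have hD : ∀ n, D (MonoidAlgebra.of F N n) = d n := by
    intro n
    simp [D]
  have hd1 : d 1 = 0 := by
    have := hd 1 1 B.one_mem B.one_mem
    rw [map_one, one_mul, one_mul] at this
    simpa using this
  have hD1 : ∀ n, D (MonoidAlgebra.of F N n - 1) = d n := by
    intro n
    rw [map_sub, hD, ← map_one (MonoidAlgebra.of F N), hD, hd1, sub_zero]
  refine ⟨D, ?_, ?_⟩
  · intro a ha x hx
    rw [hD1]
    induction ha using span_induction with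
    | mem y hy =>
      obtain ⟨b, hb, rfl⟩ := hy
      rw [mul_sub, mul_one, map_sub, ← map_mul, hD, hD, hd b x hb hx, add_sub_cancel_right]
    | zero => simp
    | add y z _ _ hy hz => rw [add_mul, map_add, hy, hz, add_mul]
    | smul r y _ hy => rw [smul_mul_assoc, map_smul, hy, smul_mul_assoc]
  · intro x hx
    rw [hD1]
    have := hρ2 (e.symm ⟨x, hx⟩)
    simpa [d, hx] using this

/-- The key freeness property: if `N` is locally free and the classes of `x i - 1` modulo
`(Del ⊤)^2` admit dual homomorphisms `h i`, then the `x i - 1` are independent modulo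
`(Del ⊤)^(k+1)` with coefficients modulo `(Del ⊤)^k`. -/
theorem coeff_mem_J (hN : ∀ B : Subgroup N, B.FG → IsFreeGroup B) {ι : Type*} [DecidableEq ι]
    (x : ι → N) (h : ι → N →* Multiplicative F)
    (hx : ∀ i j, h i (x j) = Multiplicative.ofAdd (if i = j then (1 : F) else 0))
    (k : ℕ) (s : Finset ι) (c : ι → MonoidAlgebra F N)
    (hc : ∑ i ∈ s, c i * (MonoidAlgebra.of F N (x i) - 1) ∈ J F (⊤ : Subgroup N) (k + 1)) :
    ∀ i ∈ s, c i ∈ J F (⊤ : Subgroup N) k := by
  classical
  obtain ⟨B₀, hB₀, hcB₀⟩ := exists_fg_mem_J (k + 1) _ hc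
  have h1 : ∀ i, ∃ B : Subgroup N, B.FG ∧ c i ∈ J F B 0 ∧ x i ∈ B := by
    intro i
    obtain ⟨B, hB, hcB⟩ := exists_fg_mem_J 0 (c i) (by
      change c i ∈ AlgS F ⊤
      rw [algS_top]; trivial)
    exact ⟨B ⊔ Subgroup.closure {x i}, hB.sup ⟨{x i}, by simp⟩, J_mono le_sup_left 0 hcB,
      (le_sup_right : Subgroup.closure {x i} ≤ _) (Subgroup.subset_closure rfl)⟩
  choose Bi hBi hcBi hxBi using h1
  have hBex : ∀ t : Finset ι, ∃ B : Subgroup N, B.FG ∧ B₀ ≤ B ∧ ∀ i ∈ t, Bi i ≤ B := by
    intro t
    induction t using Finset.induction_on with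
    | empty => exact ⟨B₀, hB₀, le_rfl, by simp⟩
    | insert i t _ ih =>
      obtain ⟨B, hB, h1, h2⟩ := ih
      refine ⟨B ⊔ Bi i, hB.sup (hBi i), h1.trans le_sup_left, ?_⟩
      intro j hj
      rcases Finset.mem_insert.1 hj with rfl | hj
      · exact le_sup_right
      · exact (h2 j hj).trans le_sup_left
  obtain ⟨B, hB, hB₀B, hBiB⟩ := hBex s
  have hBfree : IsFreeGroup B := hN B hB
  have hsum : ∑ i ∈ s, c i * (MonoidAlgebra.of F N (x i) - 1) ∈ J F B (k + 1) :=
    J_mono hB₀B _ hcB₀
  have hcA : ∀ i ∈ s, c i ∈ AlgS F B := fun i hi => J_mono (hBiB i hi) 0 (hcBi i)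
  have hxB : ∀ i ∈ s, x i ∈ B := fun i hi => hBiB i hi (hxBi i)
  have key : ∀ m, m ≤ k → ∀ i ∈ s, c i ∈ J F B m := by
    intro m
    induction m with
    | zero => exact fun _ i hi => hcA i hi
    | succ m ih =>
      intro hm l hl
      have ih' := ih (by omega)
      obtain ⟨D, hD1, hD2⟩ := exists_derivation B (h l)
      -- `D` maps `J B (k+1)` into `J B k`
      have hDJ : ∀ k, ∀ a ∈ J F B (k + 1), D a ∈ J F B k := by
        intro k a ha
        change a ∈ J F B k * Del F B at ha
        induction ha using Submodule.mul_induction_on' with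
        | mem_mul_mem m hm n hn =>
          induction hn using span_induction with
          | mem y hy =>
            obtain ⟨b, hb, rfl⟩ := hy
            rw [hD1 m (J_antitone B (Nat.zero_le k) hm) b hb]
            refine J_mul_algS B k (mul_mem_mul hm ?_)
            have h2 := hD2 b hb
            have h3 : D (MonoidAlgebra.of F N b - 1) =
                (D (MonoidAlgebra.of F N b - 1) -
                  algebraMap F (MonoidAlgebra F N) (h l b).toAdd) +
                algebraMap F (MonoidAlgebra F N) (h l b).toAdd := by abel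
            rw [h3]
            refine add_mem (del_le_algS B h2) ?_
            rw [Algebra.algebraMap_eq_smul_one]
            exact smul_mem _ _ (one_mem_algS B)
          | zero => simp
          | add y z _ _ hy hz => rw [mul_add, map_add]; exact add_mem hy hz
          | smul r y _ hy => rw [mul_smul_comm, map_smul]; exact smul_mem _ _ hy
        | add y _ z _ hy hz => rw [map_add]; exact add_mem hy hz
      have h4 := hDJ k _ hsum
      rw [map_sum] at h4
      have h5 : ∑ i ∈ s, D (c i * (MonoidAlgebra.of F N (x i) - 1)) =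
          c l + ∑ i ∈ s, c i * (D (MonoidAlgebra.of F N (x i) - 1) -
            algebraMap F (MonoidAlgebra F N) (h l (x i)).toAdd) := by
        have h6 : ∑ i ∈ s, c i * algebraMap F (MonoidAlgebra F N) (h l (x i)).toAdd = c l := by
          rw [Finset.sum_eq_single l]
          · rw [hx, if_pos rfl, toAdd_ofAdd, map_one, mul_one]
          · intro j _ hjl
            rw [hx, if_neg (Ne.symm hjl)]; simp
          · intro h; exact absurd hl h
        rw [← h6, ← Finset.sum_add_distrib]
        refine Finset.sum_congr rfl fun i hi => ?_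
        rw [hD1 _ (hcA i hi) _ (hxB i hi), ← mul_add, add_sub_cancel]
      rw [h5] at h4
      have h7 : ∑ i ∈ s, c i * (D (MonoidAlgebra.of F N (x i) - 1) -
            algebraMap F (MonoidAlgebra F N) (h l (x i)).toAdd) ∈ J F B (m + 1) :=
        sum_mem fun i hi => mul_mem_mul (ih' i hi) (hD2 _ (hxB i hi))
      have h8 := sub_mem (J_antitone B hm h4) h7
      rwa [add_sub_cancel_right] at h8
  intro i hi
  exact J_mono le_top k (key k le_rfl i hi)

/-- Elements `x i` of `N` with dual homomorphisms `h i`, whose differences `x i - 1` span the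
augmentation ideal modulo its square. -/
theorem exists_dual_family.{u, v} (F : Type u) [Field F] (N : Type v) [Group N] :
    ∃ (ι : Type (max u v)) (x : ι → N) (h : ι → N →* Multiplicative F) (_ : DecidableEq ι),
      (∀ i j, h i (x j) = Multiplicative.ofAdd (if i = j then (1 : F) else 0)) ∧
      Del F (⊤ : Subgroup N) ≤ span F (Set.range fun i => MonoidAlgebra.of F N (x i) - 1) ⊔
        J F (⊤ : Subgroup N) 2 := by
  classical
  let π := (J F (⊤ : Subgroup N) 2).mkQ
  let v : N → MonoidAlgebra F N ⧸ J F (⊤ : Subgroup N) 2 := fun n => π (MonoidAlgebra.of F N n - 1)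
  have hv : ∀ m n, v (m * n) = v m + v n := by
    intro m n
    have h1 : MonoidAlgebra.of F N (m * n) - 1 =
        ((MonoidAlgebra.of F N m - 1) + (MonoidAlgebra.of F N n - 1)) +
        (MonoidAlgebra.of F N m - 1) * (MonoidAlgebra.of F N n - 1) := by
      rw [map_mul]; noncomm_ring
    have h2 : π ((MonoidAlgebra.of F N m - 1) * (MonoidAlgebra.of F N n - 1)) = 0 := by
      rw [mkQ_apply, Submodule.Quotient.mk_eq_zero]
      change _ ∈ J F (⊤ : Subgroup N) 1 * Del F ⊤
      rw [J_one]
      exact mul_mem_mul (sub_one_mem_del (Subgroup.mem_top _)) (sub_one_mem_del (Subgroup.mem_top _))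
    change π _ = π _ + π _
    rw [h1, map_add, map_add, h2, add_zero]
  have hv1 : v 1 = 0 := by
    have := hv 1 1
    rw [one_mul] at this
    simpa using this
  obtain ⟨b, hbv, hspan, hli⟩ := exists_linearIndependent F (Set.range v)
  have hx : ∀ i : b, ∃ n, v n = i := fun i => hbv i.2
  choose x hx using hx
  have hli' : LinearIndepOn F id b := hli
  let bas := Module.Basis.extend hli'
  have hsub : ∀ i : b, (i : MonoidAlgebra F N ⧸ J F (⊤ : Subgroup N) 2) ∈
      LinearIndepOn.extend hli' (Set.subset_univ b) :=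
    fun i => LinearIndepOn.subset_extend hli' _ i.2
  let h : b → N →* Multiplicative F := fun i =>
    { toFun := fun n => Multiplicative.ofAdd (bas.coord ⟨i, hsub i⟩ (v n))
      map_one' := by rw [hv1, map_zero]; rfl
      map_mul' := fun m n => by rw [hv, map_add]; rfl }
  refine ⟨b, x, h, inferInstance, ?_, ?_⟩
  · intro i j
    change Multiplicative.ofAdd (bas.coord ⟨i, hsub i⟩ (v (x j))) = _
    congr 1
    rw [hx j]
    have h3 : (j : MonoidAlgebra F N ⧸ J F (⊤ : Subgroup N) 2) = bas ⟨j, hsub j⟩ := by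
      simp [bas, Module.Basis.extend_apply_self]
    rw [h3, Module.Basis.coord_apply, Module.Basis.repr_self, Finsupp.single_apply]
    by_cases hij : i = j
    · subst hij; simp
    · rw [if_neg hij, if_neg]
      intro h4
      apply hij
      have := congrArg Subtype.val h4
      exact Subtype.ext this.symm
  · refine span_le.2 ?_
    rintro _ ⟨n, -, rfl⟩
    have h4 : v n ∈ span F b := by
      rw [hspan]; exact subset_span ⟨n, rfl⟩
    have h5 : span F b = (span F (Set.range fun i => MonoidAlgebra.of F N (x i) - 1)).map π := by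
      rw [map_span, ← Set.range_comp]
      congr 1
      ext y
      constructor
      · intro hy
        exact ⟨⟨y, hy⟩, hx ⟨y, hy⟩⟩
      · rintro ⟨i, rfl⟩
        have := hx i
        change v (x i) ∈ b
        rw [this]; exact i.2
    rw [h5] at h4
    obtain ⟨y, hy, hyv⟩ := h4
    have h6 : (MonoidAlgebra.of F N n - 1) - y ∈ J F (⊤ : Subgroup N) 2 := by
      rw [← Submodule.Quotient.mk_eq_zero, ← mkQ_apply, map_sub, sub_eq_zero]
      exact hyv.symm
    have h7 : MonoidAlgebra.of F N n - 1 = y + ((MonoidAlgebra.of F N n - 1) - y) := by abel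
    rw [SetLike.mem_coe, h7]
    exact add_mem (mem_sup_left hy) (mem_sup_right h6)

/-- The linear map `(c i) ↦ ∑ c i * (x i - 1)`. -/
def Phi (F : Type*) [Field F] {N ι : Type*} [Group N] (x : ι → N) :
    (ι →₀ MonoidAlgebra F N) →ₗ[F] MonoidAlgebra F N :=
  Finsupp.lsum F (fun i => LinearMap.mulRight F (MonoidAlgebra.of F N (x i) - 1))

theorem Phi_apply {ι : Type*} (x : ι → N) (c : ι →₀ MonoidAlgebra F N) :
    Phi F x c = ∑ i ∈ c.support, c i * (MonoidAlgebra.of F N (x i) - 1) := by
  simp [Phi, Finsupp.sum]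

theorem Phi_single {ι : Type*} (x : ι → N) (i : ι) (a : MonoidAlgebra F N) :
    Phi F x (Finsupp.single i a) = a * (MonoidAlgebra.of F N (x i) - 1) := by
  simp [Phi]

theorem del_le_range_Phi {ι : Type*} (x : ι → N)
    (hx : Del F (⊤ : Subgroup N) ≤ span F (Set.range fun i => MonoidAlgebra.of F N (x i) - 1) ⊔
        J F (⊤ : Subgroup N) 2) (k : ℕ) :
    Del F (⊤ : Subgroup N) ≤ LinearMap.range (Phi F x) ⊔ J F (⊤ : Subgroup N) (k + 1) := by
  have hS : ∀ T : Submodule F (MonoidAlgebra F N),
      T * span F (Set.range fun i => MonoidAlgebra.of F N (x i) - 1) ≤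
        LinearMap.range (Phi F x) := by
    intro T
    rw [mul_le]
    intro m _ n hn
    induction hn using span_induction with
    | mem y hy =>
      obtain ⟨i, rfl⟩ := hy
      exact ⟨Finsupp.single i m, Phi_single x i m⟩
    | zero => simp
    | add y z _ _ hy hz => rw [mul_add]; exact add_mem hy hz
    | smul r y _ hy => rw [mul_smul_comm]; exact smul_mem _ _ hy
  have h1 : ∀ k, J F (⊤ : Subgroup N) (k + 1) ≤
      LinearMap.range (Phi F x) ⊔ J F (⊤ : Subgroup N) (k + 2) := by
    intro k
    calc J F (⊤ : Subgroup N) (k + 1) = J F ⊤ k * Del F ⊤ := rfl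
      _ ≤ J F ⊤ k * (span F (Set.range fun i => MonoidAlgebra.of F N (x i) - 1) ⊔
        J F (⊤ : Subgroup N) 2) := mul_le_mul_right hx _
      _ = J F ⊤ k * span F (Set.range fun i => MonoidAlgebra.of F N (x i) - 1) ⊔
          J F ⊤ k * J F (⊤ : Subgroup N) 2 := Submodule.mul_sup _ _ _
      _ ≤ LinearMap.range (Phi F x) ⊔ J F (⊤ : Subgroup N) (k + 2) :=
          sup_le_sup (hS _) (J_mul_del_mul_J _ _ _)
  induction k with
  | zero => rw [J_one]; exact le_sup_right
  | succ k ih => exact ih.trans (sup_le le_sup_left (h1 k))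

/-- If `a` lies in the augmentation ideal but not in its `(k+1)`-st power, and the family of
two-sided ideals `I w` separates elements modulo the `k`-th power, then some `I w * Del ⊤`
separates `a` modulo the `(k+1)`-st power. -/
theorem exists_notMem_mul_del (hN : ∀ B : Subgroup N, B.FG → IsFreeGroup B)
    {𝓦 : Type*} (I : 𝓦 → Submodule F (MonoidAlgebra F N))
    (hI : ∀ w, ∀ a ∈ I w, ∀ b, a * b ∈ I w) (k : ℕ)
    (hk : ∀ a, a ∉ J F (⊤ : Subgroup N) k → ∃ w, a ∉ I w ⊔ J F (⊤ : Subgroup N) k)
    (a : MonoidAlgebra F N) (ha : a ∈ Del F (⊤ : Subgroup N))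
    (hak : a ∉ J F (⊤ : Subgroup N) (k + 1)) :
    ∃ w, a ∉ I w * Del F ⊤ ⊔ J F (⊤ : Subgroup N) (k + 1) := by
  obtain ⟨ι, x, h, hdec, hx, hspan⟩ := exists_dual_family F N
  have h1 := del_le_range_Phi x hspan k
  obtain ⟨_, ⟨c, rfl⟩, f, hf, hcf⟩ := mem_sup.1 (h1 ha)
  obtain ⟨i, hi⟩ : ∃ i, c i ∉ J F (⊤ : Subgroup N) k := by
    by_contra hcon
    push Not at hcon
    apply hak
    rw [← hcf]
    refine add_mem ?_ hf
    rw [Phi_apply]
    exact sum_mem fun i _ => mul_mem_mul (hcon i) (sub_one_mem_del (Subgroup.mem_top _))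
  obtain ⟨w, hw⟩ := hk (c i) hi
  refine ⟨w, fun hcon => hw ?_⟩
  obtain ⟨b, hb, f', hf', hbf⟩ := mem_sup.1 hcon
  -- write `b` with coefficients in `I w`
  have h2 : I w * Del F ⊤ ≤ (Finsupp.submodule (fun _ : ι => I w)).map (Phi F x) ⊔
      J F (⊤ : Subgroup N) (k + 1) := by
    rw [mul_le]
    intro m hm n hn
    obtain ⟨_, ⟨c', rfl⟩, g, hg, hcg⟩ := mem_sup.1 (h1 hn)
    rw [← hcg, mul_add]
    refine add_mem (mem_sup_left ?_) (mem_sup_right (mul_mem_J' m hg))
    rw [Phi_apply, Finset.mul_sum]
    refine sum_mem fun j _ => ?_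
    rw [← mul_assoc]
    refine ⟨Finsupp.single j (m * c' j), ?_, Phi_single x j _⟩
    intro l
    rw [Finsupp.single_apply]
    split_ifs
    · exact hI w m hm _
    · exact zero_mem _
  obtain ⟨_, ⟨c', hc', rfl⟩, g, hg, hcg⟩ := mem_sup.1 (h2 hb)
  have h3 : Phi F x (c - c') ∈ J F (⊤ : Subgroup N) (k + 1) := by
    have h4 : Phi F x (c - c') = g + f' - f := by
      rw [map_sub, sub_eq_iff_eq_add]
      have h5 : Phi F x c + f = Phi F x c' + g + f' := by rw [hcf, hcg, hbf]
      rw [← add_right_cancel_iff (a := f), h5]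
      abel
    rw [h4]
    exact sub_mem (add_mem hg hf') hf
  rw [Phi_apply] at h3
  have h5 := coeff_mem_J hN x h hx k (c - c').support (fun i => (c - c') i) h3
  have h6 : (c - c') i ∈ J F (⊤ : Subgroup N) k := by
    by_cases hi' : i ∈ (c - c').support
    · exact h5 i hi'
    · rw [Finsupp.notMem_support_iff.1 hi']; exact zero_mem _
  have h7 : c i = c' i + (c - c') i := by simp
  rw [h7]
  exact add_mem (mem_sup_left (hc' i)) (mem_sup_right h6)

end

end Pool.Agent.H91
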