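import Mathlib

/-!
# P. Hall type residual finiteness for modules

If `G` is finitely generated, `M` is an abelian normal subgroup of exponent `p` and `G ⧸ M` has only
finitely many commutators, then the elements of `M` can be separated from `1` by normal subgroups of
`G` of finite index in `M`.
-/

open Subgroup
open scoped commutatorElement IsMulCommutative

namespace Pool.Agent.H91

/-- A finitely generated module over a commutative `𝔽_p`-algebra of finite type is residually
finite, in the strong form that the separating submodules are of the form `I • ⊤`. -/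
theorem exists_ideal_smul_top (p : ℕ) [Fact p.Prime] {S M : Type*} [CommRing S]
    [Algebra (ZMod p) S] [Algebra.FiniteType (ZMod p) S] [AddCommGroup M] [Module S M]
    [Module.Finite S M] (m : M) (hm : m ≠ 0) :
    ∃ I : Ideal S, Finite (M ⧸ (I • ⊤ : Submodule S M)) ∧ m ∉ (I • ⊤ : Submodule S M) := by
  have hN : IsNoetherianRing S := Algebra.FiniteType.isNoetherianRing (ZMod p) S
  have h1 : LinearMap.ker (LinearMap.toSpanSingleton S M m) ≠ ⊤ := by
    intro h
    have : (1 : S) ∈ LinearMap.ker (LinearMap.toSpanSingleton S M m) := by rw [h]; trivial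
    simp at this
    exact hm this
  obtain ⟨J, hJ, hJm⟩ := Ideal.exists_le_maximal _ h1
  have h2 : m ∉ (⨅ i : ℕ, J ^ i • ⊤ : Submodule S M) := by
    intro h
    obtain ⟨⟨r, hr⟩, hrm⟩ := (J.mem_iInf_smul_pow_eq_bot_iff m).1 h
    have h3 : (1 - r) ∈ J := hJm (by
      simp only [LinearMap.mem_ker, LinearMap.toSpanSingleton_apply, sub_smul, one_smul]
      rw [hrm, sub_self])
    exact hJ.ne_top ((Ideal.eq_top_iff_one _).2 (by simpa using J.add_mem h3 hr))
  rw [Submodule.mem_iInf] at h2
  push Not at h2
  obtain ⟨i, hi⟩ := h2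
  have hfin : Finite (S ⧸ J) := by
    let _ := Ideal.Quotient.field J
    have : Module.Finite (ZMod p) (S ⧸ J) := finite_of_finite_type_of_isJacobsonRing _ _
    exact Module.finite_of_finite (ZMod p)
  have hfin2 : Finite (S ⧸ J ^ i) := Ideal.finite_quotient_pow (IsNoetherian.noetherian J) i
  refine ⟨J ^ i, ?_, hi⟩
  exact Submodule.finite_quotient_smul (J ^ i) (N := (⊤ : Submodule S M)) Module.Finite.fg_top

/-- Residual finiteness of representations over `𝔽_p` which are finitely generated over a
finitely generated central subgroup. -/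
theorem exists_invariant_addSubgroup (p : ℕ) [Fact p.Prime] {Q Z V : Type*} [Group Q]
    [CommGroup Z] [Group.FG Z] (ι : Z →* Q) (hι : ∀ z q, q * ι z = ι z * q)
    [AddCommGroup V] [Module (ZMod p) V]
    (ρ : Q →* Module.End (ZMod p) V) (E : Set V) (hE : E.Finite)
    (hgen : ∀ U : AddSubgroup V, E ⊆ U → (∀ z : Z, ∀ u ∈ U, ρ (ι z) u ∈ U) → U = ⊤)
    (v : V) (hv : v ≠ 0) :
    ∃ U : AddSubgroup V, Finite (V ⧸ U) ∧ v ∉ U ∧ ∀ q : Q, ∀ u ∈ U, ρ q u ∈ U := by
  classical
  let Ψ : MonoidAlgebra (ZMod p) Z →ₐ[ZMod p] Module.End (ZMod p) V :=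
    MonoidAlgebra.lift (ZMod p) (Module.End (ZMod p) V) Z (ρ.comp ι)
  let _ : Module (MonoidAlgebra (ZMod p) Z) V := Module.compHom V Ψ.toRingHom
  have hsmul : ∀ (r : MonoidAlgebra (ZMod p) Z) (u : V), r • u = Ψ r u := fun r u => rfl
  have hΨ : ∀ z : Z, Ψ (MonoidAlgebra.single z (1 : ZMod p)) = ρ (ι z) := by
    intro z
    simp only [Ψ]
    rw [MonoidAlgebra.lift_single, one_smul]
    rfl
  have hsingle : ∀ (z : Z) (u : V), (MonoidAlgebra.single z (1 : ZMod p)) • u =
      ρ (ι z) u := by
    intro z u
    rw [hsmul, hΨ]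
  have : Monoid.FG Z := Group.fg_iff_monoid_fg.1 inferInstance
  have : Algebra.FiniteType (ZMod p) (MonoidAlgebra (ZMod p) Z) := MonoidAlgebra.finiteType_of_fg
  have : Module.Finite (MonoidAlgebra (ZMod p) Z) V := by
    refine ⟨⟨hE.toFinset, ?_⟩⟩
    have h := hgen (Submodule.span (MonoidAlgebra (ZMod p) Z) E).toAddSubgroup
      Submodule.subset_span (by
      intro z u hu
      have h2 := (Submodule.span (MonoidAlgebra (ZMod p) Z) E).smul_mem
        (MonoidAlgebra.single z 1) hu
      rw [hsingle] at h2
      exact h2)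
    rw [Set.Finite.coe_toFinset]
    rw [eq_top_iff]
    intro x _
    have : x ∈ (Submodule.span (MonoidAlgebra (ZMod p) Z) E).toAddSubgroup := by rw [h]; trivial
    exact this
  obtain ⟨I, hI, hvI⟩ := exists_ideal_smul_top p (S := MonoidAlgebra (ZMod p) Z) v hv
  refine ⟨(I • ⊤ : Submodule (MonoidAlgebra (ZMod p) Z) V).toAddSubgroup, hI, hvI, ?_⟩
  intro q u hu
  have hcomm : ∀ (r : MonoidAlgebra (ZMod p) Z) (u : V), Ψ r (ρ q u) = ρ q (Ψ r u) := by
    intro r u
    induction r using MonoidAlgebra.induction_on with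
    | of z =>
      rw [MonoidAlgebra.of_apply, hΨ, ← Module.End.mul_apply, ← Module.End.mul_apply,
        ← map_mul, ← map_mul, hι]
    | add f g hf hg => simp only [map_add, LinearMap.add_apply, hf, hg]
    | smul r f hf => simp only [map_smul, LinearMap.smul_apply, hf]
  let L : V →ₗ[MonoidAlgebra (ZMod p) Z] V :=
    { toFun := ρ q
      map_add' := map_add _
      map_smul' := fun r u => (hcomm r u).symm }
  have h3 : (I • ⊤ : Submodule (MonoidAlgebra (ZMod p) Z) V).map L ≤ I • ⊤ := by
    rw [Submodule.map_smul'']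
    exact Submodule.smul_mono le_rfl le_top
  exact h3 (Submodule.mem_map_of_mem (f := L) hu)

section group

variable {G : Type*} [Group G]

/-- If pairwise commuting elements generate a group modulo a normal subgroup `U`, then `U`
contains the commutator subgroup. -/
theorem commutator_le_of_commute (U : Subgroup G) [U.Normal] (T : Set G)
    (hT : closure T = ⊤) (hc : ∀ s ∈ T, ∀ t ∈ T, ⁅s, t⁆ ∈ U) : _root_.commutator G ≤ U := by
  have hcomm : ∀ x y : G, ⁅x, y⁆ ∈ U := by
    have key : ∀ x y : G, ⁅x, y⁆ ∈ U ↔ Commute (x : G ⧸ U) (y : G ⧸ U) := by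
      intro x y
      rw [← QuotientGroup.eq_one_iff, ← commutatorElement_eq_one_iff_commute]
      rfl
    have step1 : ∀ s ∈ T, ∀ y : G, ⁅s, y⁆ ∈ U := by
      intro s hs y
      have hy : y ∈ closure T := by rw [hT]; trivial
      induction hy using closure_induction with
      | mem t ht => exact hc s hs t ht
      | one => simp
      | mul a b _ _ ha hb =>
        rw [key] at *
        exact ha.mul_right hb
      | inv a _ ha =>
        rw [key] at *
        exact ha.inv_right
    intro x y
    have hx : x ∈ closure T := by rw [hT]; trivial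
    induction hx using closure_induction with
    | mem t ht => exact step1 t ht y
    | one => simp
    | mul a b _ _ ha hb =>
      rw [key] at *
      exact ha.mul_left hb
    | inv a _ ha =>
      rw [key] at *
      exact ha.inv_left
  rw [_root_.commutator_def, commutator_le]
  intro x _ y _
  exact hcomm x y

/-- Automorphisms of an additive commutative group of exponent `p` as linear maps over `𝔽_p`. -/
def autToEnd (p : ℕ) {V : Type*} [AddCommGroup V] [Module (ZMod p) V] :
    MulAut (Multiplicative V) →* Module.End (ZMod p) V where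
  toFun f := (AddMonoidHom.toMultiplicative.symm f.toMonoidHom).toZModLinearMap p
  map_one' := rfl
  map_mul' _ _ := LinearMap.ext fun _ => rfl

/-- Every subgroup of a finitely generated commutative group is finitely generated. -/
theorem subgroup_fg_of_comm {B : Type*} [CommGroup B] [Group.FG B] (H : Subgroup B) : H.FG := by
  have h1 : Module.Finite ℤ (Additive B) := Module.Finite.iff_addGroup_fg.2 inferInstance
  have h2 : (AddSubgroup.toIntSubmodule (Subgroup.toAddSubgroup H)).FG :=
    IsNoetherian.noetherian _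
  rw [Submodule.fg_iff_addSubgroup_fg, AddSubgroup.toIntSubmodule_toAddSubgroup] at h2
  exact (Subgroup.fg_iff_add_fg H).2 h2

/-- Let `G₀` be a finitely generated group and `M` a normal subgroup containing the commutator
subgroup.  Then there is a finite subset `E` of `M` such that `M` is contained in every normal
subgroup containing `E`. -/
theorem exists_finite_normal_generators {G₀ : Type*} [Group G₀] [Group.FG G₀] (M : Subgroup G₀)
    (hM : _root_.commutator G₀ ≤ M) :
    ∃ E : Set G₀, E.Finite ∧ E ⊆ M ∧ ∀ U : Subgroup G₀, U.Normal → E ⊆ U → M ≤ U := by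
  classical
  obtain ⟨T, hT⟩ := (Group.fg_def.1 (inferInstance : Group.FG G₀))
  have hab : Group.FG (Abelianization G₀) :=
    Group.fg_of_surjective (f := Abelianization.of (G := G₀)) (QuotientGroup.mk'_surjective _)
  have hfg : (M.map (Abelianization.of (G := G₀))).FG := subgroup_fg_of_comm _
  obtain ⟨S, hS⟩ := hfg
  have hS' : ∀ s ∈ S, ∃ m ∈ M, Abelianization.of m = s := by
    intro s hs
    have : s ∈ M.map (Abelianization.of (G := G₀)) := by
      rw [← hS]; exact subset_closure hs
    exact this
  choose! f hfM hf using hS'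
  refine ⟨f '' S ∪ (fun x : G₀ × G₀ => ⁅x.1, x.2⁆) '' ((T : Set G₀) ×ˢ (T : Set G₀)), ?_, ?_, ?_⟩
  · exact (S.finite_toSet.image _).union ((T.finite_toSet.prod T.finite_toSet).image _)
  · rintro x (⟨s, hs, rfl⟩ | ⟨⟨a, b⟩, -, rfl⟩)
    · exact hfM s hs
    · exact hM (commutator_mem_commutator (mem_top _) (mem_top _))
  · intro U hU hE m hm
    have hCU : _root_.commutator G₀ ≤ U := by
      refine commutator_le_of_commute U (T : Set G₀) hT ?_
      intro s hs t ht
      exact hE (Or.inr ⟨(s, t), ⟨hs, ht⟩, rfl⟩)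
    have h1 : Abelianization.of m ∈ U.map (Abelianization.of (G := G₀)) := by
      have h2 : Abelianization.of m ∈ M.map (Abelianization.of (G := G₀)) :=
        mem_map_of_mem _ hm
      rw [← hS] at h2
      refine (closure_le _).2 ?_ h2
      intro s hs
      exact ⟨f s, hE (Or.inl ⟨s, hs, rfl⟩), hf s hs⟩
    obtain ⟨u, hu, hum⟩ := h1
    have h3 : u⁻¹ * m ∈ U := by
      apply hCU
      rw [← Abelianization.ker_of, MonoidHom.mem_ker, map_mul, map_inv, hum, inv_mul_cancel]
    have := U.mul_mem hu h3
    simpa using this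

/-- Auxiliary form of the next theorem, with an additive model `V` of the normal subgroup. -/
theorem exists_normal_of_abelian_aux (p : ℕ) [Fact p.Prime] [Group.FG G] (M : Subgroup G)
    [M.Normal] {V : Type*} [AddCommGroup V] [Module (ZMod p) V] (φ : Multiplicative V ≃* M)
    [Finite (commutatorSet (G ⧸ M))] (m : M) (hm1 : m ≠ 1) :
    ∃ U : Subgroup G, U.Normal ∧ U ≤ M ∧ U.relIndex M ≠ 0 ∧ (m : G) ∉ U := by
  classical
  let f : M → V := fun x => (φ.symm x).toAdd
  have hf : ∀ x y, f (x * y) = f x + f y := fun x y => by simp [f]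
  have hf1 : f 1 = 0 := by simp [f]
  have hfinv : ∀ x, f x⁻¹ = - f x := fun x => by simp [f]
  have hfinj : Function.Injective f := fun x y h => φ.symm.injective (Multiplicative.toAdd.injective h)
  have hfsurj : Function.Surjective f := fun v => ⟨φ (Multiplicative.ofAdd v), by simp [f]⟩
  have hcomm : ∀ a b : M, a * b = b * a := fun a b => hfinj (by rw [hf, hf, add_comm])
  let c : G ⧸ M →* MulAut M := QuotientGroup.lift M MulAut.conjNormal (by
    intro g hg
    ext x
    simp only [MulAut.conjNormal_apply, MulAut.one_apply]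
    have h := congrArg Subtype.val (hcomm ⟨g, hg⟩ x)
    simp only [Subgroup.coe_mul] at h
    rw [h, mul_inv_cancel_right])
  let ρ : G ⧸ M →* Module.End (ZMod p) V :=
    ((autToEnd p).comp (MulAut.congr φ.symm).toMonoidHom).comp c
  have hρ : ∀ (g : G) (x : M), ρ (g : G ⧸ M) (f x) = f (MulAut.conjNormal g x) := by
    intro g x
    have h1 : ρ (g : G ⧸ M) (f x) = (φ.symm (MulAut.conjNormal g (φ (φ.symm x)))).toAdd := rfl
    rw [h1, MulEquiv.apply_symm_apply]
  -- the preimage of the centre
  let G₀ : Subgroup G := (center (G ⧸ M)).comap (QuotientGroup.mk' M)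
  have hZi : (center (G ⧸ M)).FiniteIndex := inferInstance
  have hG₀ : G₀.FiniteIndex := ⟨by
    rw [Subgroup.index_comap_of_surjective _ (QuotientGroup.mk'_surjective M)]
    exact hZi.index_ne_zero⟩
  have hMG₀ : M ≤ G₀ := by
    intro x hx
    have : (x : G ⧸ M) = 1 := (QuotientGroup.eq_one_iff x).2 hx
    change (x : G ⧸ M) ∈ center (G ⧸ M)
    rw [this]; exact Subgroup.one_mem _
  have hG₀fg : Group.FG G₀ := Subgroup.fg_of_index_ne_zero G₀
  have hZfg : Group.FG (center (G ⧸ M)) := Subgroup.fg_of_index_ne_zero (center (G ⧸ M))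
  have hcM : _root_.commutator G₀ ≤ M.subgroupOf G₀ := by
    rw [_root_.commutator_def, commutator_le]
    intro x _ y _
    rw [mem_subgroupOf, ← QuotientGroup.eq_one_iff]
    have hx : ((x : G) : G ⧸ M) ∈ center (G ⧸ M) := x.2
    have h2 := mem_center_iff.1 hx ((y : G) : G ⧸ M)
    have h3 : (((⁅x, y⁆ : G₀) : G) : G ⧸ M) = ⁅((x : G) : G ⧸ M), ((y : G) : G ⧸ M)⁆ := rfl
    rw [h3, commutatorElement_eq_one_iff_mul_comm]
    exact h2.symm
  obtain ⟨E, hEf, hEM, hE⟩ := exists_finite_normal_generators (M.subgroupOf G₀) hcM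
  let E' : Set V := {v | ∃ x ∈ E, ∃ y : M, (y : G) = (x : G) ∧ v = f y}
  have hE'f : E'.Finite := by
    have h1 : {y : M | ∃ x ∈ E, (y : G) = (x : G)}.Finite := by
      refine Set.Finite.of_finite_image (f := fun y : M => (y : G))
        ((hEf.image (fun x : G₀ => (x : G))).subset ?_) ?_
      · rintro _ ⟨y, ⟨x, hx, hyx⟩, rfl⟩
        exact ⟨x, hx, hyx.symm⟩
      · intro a _ b _ hab
        exact Subtype.ext hab
    refine (h1.image f).subset ?_
    rintro v ⟨x, hx, y, hyx, rfl⟩
    exact ⟨y, ⟨x, hx, hyx⟩, rfl⟩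
  have hι : ∀ (z : center (G ⧸ M)) (q : G ⧸ M), q * (center (G ⧸ M)).subtype z =
      (center (G ⧸ M)).subtype z * q := fun z q => mem_center_iff.1 z.2 q
  obtain ⟨U, hUf, hmU, hUinv⟩ := exists_invariant_addSubgroup p (Z := center (G ⧸ M))
    (center (G ⧸ M)).subtype hι ρ E' hE'f
    (by
      intro U hEU hUZ
      -- the subgroup of `G₀` corresponding to `U`
      let U' : Subgroup G₀ :=
        { carrier := {g | ∃ h : (g : G) ∈ M, f ⟨g, h⟩ ∈ U}
          mul_mem' := by
            rintro a b ⟨ha, ha'⟩ ⟨hb, hb'⟩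
            refine ⟨M.mul_mem ha hb, ?_⟩
            have := U.add_mem ha' hb'
            rw [← hf] at this
            exact this
          one_mem' := ⟨M.one_mem, by
            have := U.zero_mem
            rw [← hf1] at this
            exact this⟩
          inv_mem' := by
            rintro a ⟨ha, ha'⟩
            refine ⟨M.inv_mem ha, ?_⟩
            have := U.neg_mem ha'
            rw [← hfinv] at this
            exact this }
      have hU' : U'.Normal := by
        refine ⟨?_⟩
        rintro n ⟨hn, hn'⟩ g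
        have h1 := hUZ ⟨((g : G) : G ⧸ M), g.2⟩ _ hn'
        refine ⟨‹M.Normal›.conj_mem _ hn _, ?_⟩
        have h2 := hρ (g : G) ⟨n, hn⟩
        have h3 : ρ ((g : G) : G ⧸ M) (f (⟨n, hn⟩ : M)) ∈ U := h1
        rw [h2] at h3
        exact h3
      have h4 := hE U' hU' (by
        intro x hx
        have hxM : (x : G) ∈ M := hEM hx
        exact ⟨hxM, hEU ⟨x, hx, ⟨x, hxM⟩, rfl, rfl⟩⟩)
      rw [eq_top_iff]
      intro v _
      obtain ⟨y, rfl⟩ := hfsurj v
      have h5 : (⟨(y : G), hMG₀ y.2⟩ : G₀) ∈ M.subgroupOf G₀ := y.2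
      obtain ⟨h6, h7⟩ := h4 h5
      exact h7)
    (f m) (by
      intro h
      apply hm1
      rw [← hf1] at h
      exact hfinj h)
  -- the subgroup of `G` corresponding to `U`
  let U' : Subgroup G :=
    { carrier := {g | ∃ h : (g : G) ∈ M, f ⟨g, h⟩ ∈ U}
      mul_mem' := by
        rintro a b ⟨ha, ha'⟩ ⟨hb, hb'⟩
        refine ⟨M.mul_mem ha hb, ?_⟩
        have := U.add_mem ha' hb'
        rw [← hf] at this
        exact this
      one_mem' := ⟨M.one_mem, by
        have := U.zero_mem
        rw [← hf1] at this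
        exact this⟩
      inv_mem' := by
        rintro a ⟨ha, ha'⟩
        refine ⟨M.inv_mem ha, ?_⟩
        have := U.neg_mem ha'
        rw [← hfinv] at this
        exact this }
  refine ⟨U', ⟨?_⟩, ?_, ?_, ?_⟩
  · rintro n ⟨hn, hn'⟩ g
    have h1 := hUinv (g : G ⧸ M) _ hn'
    rw [hρ g ⟨n, hn⟩] at h1
    exact ⟨‹M.Normal›.conj_mem _ hn _, h1⟩
  · rintro g ⟨h, -⟩
    exact h
  · let F : M →* Multiplicative (V ⧸ U) :=
      { toFun := fun x => Multiplicative.ofAdd ((f x : V) : V ⧸ U)
        map_one' := by simp [hf1]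
        map_mul' := fun x y => by simp [hf] }
    have h1 : U'.subgroupOf M = F.ker := by
      ext x
      rw [MonoidHom.mem_ker]
      constructor
      · rintro ⟨h, h'⟩
        exact congrArg Multiplicative.ofAdd ((QuotientAddGroup.eq_zero_iff _).2 h')
      · intro h
        exact ⟨x.2, (QuotientAddGroup.eq_zero_iff _).1 (Multiplicative.ofAdd.injective h)⟩
    rw [Subgroup.relIndex, h1]
    have : Finite (Multiplicative (V ⧸ U)) := hUf
    exact (inferInstance : F.ker.FiniteIndex).index_ne_zero
  · rintro ⟨h, h'⟩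
    exact hmU h'

/-- **A residual finiteness theorem of P. Hall type.** Let `G` be a finitely generated group and
`M` an abelian normal subgroup of prime exponent `p` such that `G ⧸ M` has only finitely many
commutators.  Then every nontrivial element of `M` lies outside some normal subgroup `U` of `G`
which is contained in `M` and has finite index in `M`. -/
theorem exists_normal_of_abelian (p : ℕ) [Fact p.Prime] [Group.FG G] (M : Subgroup G) [M.Normal]
    (hcomm : ∀ a ∈ M, ∀ b ∈ M, a * b = b * a) (hexp : ∀ a ∈ M, a ^ p = 1)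
    [Finite (commutatorSet (G ⧸ M))] (m : G) (hm : m ∈ M) (hm1 : m ≠ 1) :
    ∃ U : Subgroup G, U.Normal ∧ U ≤ M ∧ U.relIndex M ≠ 0 ∧ m ∉ U := by
  let _ : CommGroup M := { (inferInstance : Group M) with
    mul_comm := fun a b => Subtype.ext (hcomm a a.2 b b.2) }
  let _ : Module (ZMod p) (Additive M) := AddCommGroup.zmodModule (fun x => by
    have : (x.toMul) ^ p = 1 := Subtype.ext (hexp _ x.toMul.2)
    exact congrArg Additive.ofMul this)
  exact exists_normal_of_abelian_aux p M (V := Additive M)
    ({ Equiv.refl M with map_mul' := fun _ _ => rfl }) ⟨m, hm⟩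
    (fun h => hm1 (congrArg Subtype.val h))

end group

end Pool.Agent.H91
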