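import Mathlib

/-!
# Irreducible actions of solvable groups

A finite group `K ≠ 1` on which a finite solvable group acts by automorphisms without proper
nontrivial invariant subgroups is an abelian group of prime power order.
-/

open Subgroup
open scoped commutatorElement

namespace Pool.Agent.H91

section

variable {K : Type*} [Group K]

/-- A nontrivial finite solvable group has a nontrivial normal `q`-subgroup for some prime `q`. -/
theorem exists_normal_pgroup {R : Type*} [Group R] [Finite R] [Nontrivial R] [Group.IsSolvable R] :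
    ∃ (q : ℕ) (_ : Fact q.Prime) (A : Subgroup R), A.Normal ∧ A ≠ ⊥ ∧ IsPGroup q A := by
  classical
  have hs : ∃ n, derivedSeries R n = ⊥ := (Group.isSolvable_def R).1 ‹_›
  have hn0 : Nat.find hs ≠ 0 := by
    intro h
    have := Nat.find_spec hs
    rw [h, derivedSeries_zero] at this
    exact top_ne_bot this
  obtain ⟨m, hm⟩ := Nat.exists_eq_succ_of_ne_zero hn0
  set B := derivedSeries R m with hB
  have hBne : B ≠ ⊥ := Nat.find_min hs (by omega)
  have hBcomm : ∀ a ∈ B, ∀ b ∈ B, a * b = b * a := by
    have h := Nat.find_spec hs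
    rw [hm, Nat.succ_eq_add_one, derivedSeries_succ] at h
    intro a ha b hb
    have h1 : ⁅a, b⁆ ∈ ⁅B, B⁆ := commutator_mem_commutator ha hb
    rw [h, mem_bot, commutatorElement_eq_one_iff_mul_comm] at h1
    exact h1
  have hBn : B.Normal := inferInstance
  have hcard : Nat.card B ≠ 1 := fun h => hBne (Subgroup.card_eq_one.1 h)
  obtain ⟨q, hq, hqB⟩ := Nat.exists_prime_and_dvd hcard
  have hqf : Fact q.Prime := ⟨hq⟩
  let A : Subgroup R :=
    { carrier := {b | b ∈ B ∧ b ^ q = 1}
      mul_mem' := by
        rintro a b ⟨ha, ha'⟩ ⟨hb, hb'⟩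
        refine ⟨B.mul_mem ha hb, ?_⟩
        rw [(show Commute a b from hBcomm a ha b hb).mul_pow, ha', hb', one_mul]
      one_mem' := ⟨B.one_mem, one_pow _⟩
      inv_mem' := by
        rintro a ⟨ha, ha'⟩
        exact ⟨B.inv_mem ha, by rw [inv_pow, ha', inv_one]⟩ }
  refine ⟨q, hqf, A, ⟨?_⟩, ?_, ?_⟩
  · rintro a ⟨ha, ha'⟩ g
    refine ⟨hBn.conj_mem a ha g, ?_⟩
    rw [conj_pow, ha', mul_one, mul_inv_cancel]
  · obtain ⟨x, hx⟩ := exists_prime_orderOf_dvd_card' q hqB
    intro h
    have hxA : (x : R) ∈ A := by
      refine ⟨x.2, ?_⟩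
      have : x ^ q = 1 := by rw [← hx]; exact pow_orderOf_eq_one x
      rw [← Subgroup.coe_pow, this, Subgroup.coe_one]
    rw [h, mem_bot] at hxA
    have h1 : x = 1 := Subtype.ext hxA
    rw [h1, orderOf_one] at hx
    exact hq.one_lt.ne hx
  · intro a
    refine ⟨1, ?_⟩
    rw [pow_one]
    exact Subtype.ext a.2.2

/-- Invariance of a subgroup under a group of automorphisms. -/
def Inv (R : Subgroup (MulAut K)) (Y : Subgroup K) : Prop := ∀ α ∈ R, ∀ y ∈ Y, α y ∈ Y

/-- Irreducible actions of solvable groups. -/
theorem isPGroup_of_solvable [Finite K] [Nontrivial K] (R : Subgroup (MulAut K)) [Group.IsSolvable R]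
    (hirr : ∀ Y : Subgroup K, Inv R Y → Y = ⊥ ∨ Y = ⊤) :
    ∃ p : ℕ, p.Prime ∧ IsPGroup p K := by
  have hfinR : Finite R := inferInstance
  -- a prime dividing the order of `K`
  have hcard1 : Nat.card K ≠ 1 := Finite.one_lt_card.ne'
  by_cases hR : Nontrivial R
  · obtain ⟨q, hq, A, hAn, hAne, hAq⟩ := exists_normal_pgroup (R := R)
    -- fixed points of `A`
    let C : Subgroup K :=
      { carrier := {x | ∀ a : R, a ∈ A → (a : MulAut K) x = x}
        mul_mem' := by
          intro x y hx hy a ha
          rw [map_mul, hx a ha, hy a ha]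
        one_mem' := fun a _ => map_one _
        inv_mem' := by
          intro x hx a ha
          rw [map_inv, hx a ha] }
    have hCinv : Inv R C := by
      intro α hα x hx a ha
      have h1 : (⟨α, hα⟩ : R)⁻¹ * a * ⟨α, hα⟩ ∈ A := by
        have := hAn.conj_mem a ha (⟨α, hα⟩ : R)⁻¹
        simpa using this
      have h2 := hx _ h1
      have h3 : ((⟨α, hα⟩ : R)⁻¹ * a * ⟨α, hα⟩ : R) = ⟨α⁻¹ * a * α, by
        exact R.mul_mem (R.mul_mem (R.inv_mem hα) a.2) hα⟩ := rfl
      rw [h3] at h2
      change (α⁻¹ * (a : MulAut K) * α) x = x at h2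
      rw [MulAut.mul_apply, MulAut.mul_apply, MulAut.inv_apply, MulEquiv.symm_apply_eq] at h2
      exact h2
    have hC : C = ⊥ := by
      rcases hirr C hCinv with h | h
      · exact h
      · exfalso
        apply hAne
        rw [eq_bot_iff]
        intro a ha
        rw [mem_bot]
        apply Subtype.ext
        refine MulEquiv.ext fun x => ?_
        have hx : x ∈ C := by rw [h]; trivial
        exact hx a ha
    -- `q` does not divide the order of `K`
    have hqK : ¬ q ∣ Nat.card K := by
      intro hdvd
      have hAq' : IsPGroup q A := hAq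
      let _ : MulAction A K :=
        { smul := fun a x => ((a : R) : MulAut K) x
          one_smul := fun x => rfl
          mul_smul := fun a b x => rfl }
      obtain ⟨b, hb, hb1⟩ := hAq'.exists_fixed_point_of_prime_dvd_card_of_fixed_point K hdvd
        (a := 1) (fun a => map_one ((a : R) : MulAut K))
      have : b ∈ C := fun a ha => hb ⟨a, ha⟩
      rw [hC, mem_bot] at this
      exact hb1 this.symm
    obtain ⟨r, hr, hrK⟩ := Nat.exists_prime_and_dvd hcard1
    have hrf : Fact r.Prime := ⟨hr⟩
    refine ⟨r, hr, ?_⟩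
    -- the action on the Sylow `r`-subgroups
    have hfix : ∃ P : Sylow r K, ∀ a : R, a ∈ A → (a : MulAut K) • P = P := by
      let _ : MulAction A (Sylow r K) :=
        { smul := fun a P => ((a : R) : MulAut K) • P
          one_smul := fun P => one_smul (MulAut K) P
          mul_smul := fun a b P => mul_smul ((a : R) : MulAut K) ((b : R) : MulAut K) P }
      have hnd : ¬ q ∣ Nat.card (Sylow r K) := by
        intro h
        obtain ⟨P⟩ : Nonempty (Sylow r K) := inferInstance
        exact hqK (h.trans ((Sylow.card_dvd_index P).trans P.index_dvd_card))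
      obtain ⟨P, hP⟩ := hAq.nonempty_fixed_point_of_prime_not_dvd_card (Sylow r K) hnd
      exact ⟨P, fun a ha => hP ⟨a, ha⟩⟩
    obtain ⟨P, hP⟩ := hfix
    have huniq : ∀ P' : Sylow r K, (∀ a : R, a ∈ A → (a : MulAut K) • P' = P') → P' = P := by
      intro P' hP'
      -- the set of all `y` with `y P y⁻¹ = P'`
      let T := {y : K // y • P = P'}
      let _ : MulAction A T :=
        { smul := fun a y => ⟨((a : R) : MulAut K) y.1, by
            have h1 : ((a : R) : MulAut K) • (y.1 • P) = P' := by
              rw [y.2]; exact hP' a a.2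
            have h2 : ((a : R) : MulAut K) • (y.1 • P) =
                (((a : R) : MulAut K) y.1) • (((a : R) : MulAut K) • P) := by
              apply Sylow.ext
              apply SetLike.ext'
              ext z
              constructor
              · rintro ⟨_, ⟨w, hw, rfl⟩, rfl⟩
                exact ⟨((a : R) : MulAut K) w, ⟨w, hw, rfl⟩, by simp⟩
              · rintro ⟨_, ⟨w, hw, rfl⟩, rfl⟩
                exact ⟨_, ⟨w, hw, rfl⟩, by simp⟩
            rw [h2, hP a a.2] at h1
            exact h1⟩
          one_smul := fun y => Subtype.ext rfl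
          mul_smul := fun a b y => Subtype.ext rfl }
      obtain ⟨x, hx⟩ := MulAction.exists_smul_eq K P P'
      have hcardT : Nat.card T = Nat.card (normalizer ((P : Subgroup K) : Set K)) := by
        refine Nat.card_congr ?_
        refine
          { toFun := fun y => ⟨x⁻¹ * y.1, ?_⟩
            invFun := fun n => ⟨x * n.1, ?_⟩
            left_inv := fun y => Subtype.ext (mul_inv_cancel_left _ _)
            right_inv := fun n => Subtype.ext (inv_mul_cancel_left _ _) }
        · refine Sylow.smul_eq_iff_mem_normalizer.1 ?_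
          rw [mul_smul, y.2, ← hx, inv_smul_smul]
        · have hn : n.1 • P = P := Sylow.smul_eq_iff_mem_normalizer.2 n.2
          rw [mul_smul, hn, hx]
      have hnd : ¬ q ∣ Nat.card T := by
        rw [hcardT]
        exact fun h => hqK (h.trans (Subgroup.card_subgroup_dvd_card _))
      obtain ⟨y, hy⟩ := hAq.nonempty_fixed_point_of_prime_not_dvd_card T hnd
      have hyC : y.1 ∈ C := fun a ha => congrArg Subtype.val (hy ⟨a, ha⟩)
      rw [hC, mem_bot] at hyC
      have h1 := y.2
      rw [hyC, one_smul] at h1
      exact h1.symm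
    have hPinv : Inv R (P : Subgroup K) := by
      intro α hα x hx
      have h1 : α • P = P := by
        apply huniq
        intro a ha
        have h2 : (⟨α, hα⟩ : R)⁻¹ * a * ⟨α, hα⟩ ∈ A := by
          have := hAn.conj_mem a ha (⟨α, hα⟩ : R)⁻¹
          simpa using this
        have h3 : (α⁻¹ * (a : MulAut K) * α) • P = P := hP _ h2
        rw [mul_smul, mul_smul, inv_smul_eq_iff] at h3
        exact h3
      have h2 : α x ∈ ((α • P : Sylow r K) : Subgroup K) := ⟨x, hx, rfl⟩
      rw [h1] at h2
      exact h2
    rcases hirr _ hPinv with h | h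
    · exfalso
      have h1 : r ∣ Nat.card P := P.dvd_card_of_dvd_card hrK
      rw [h, Subgroup.card_bot] at h1
      exact hr.one_lt.not_ge (Nat.le_of_dvd one_pos h1)
    · have h1 : IsPGroup r (⊤ : Subgroup K) := by rw [← h]; exact P.2
      exact h1.of_equiv Subgroup.topEquiv
  · -- trivial action: every subgroup is invariant
    have htriv : ∀ α ∈ R, α = 1 := by
      intro α hα
      by_contra hne
      exact hR ⟨⟨α, hα⟩, 1, fun h => hne (congrArg Subtype.val h)⟩
    obtain ⟨p, hp, hpK⟩ := Nat.exists_prime_and_dvd hcard1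
    have hpf : Fact p.Prime := ⟨hp⟩
    refine ⟨p, hp, ?_⟩
    obtain ⟨P⟩ : Nonempty (Sylow p K) := inferInstance
    rcases hirr P (fun α hα y hy => by rw [htriv α hα]; exact hy) with h | h
    · exfalso
      have h1 : p ∣ Nat.card P := P.dvd_card_of_dvd_card hpK
      rw [h, Subgroup.card_bot] at h1
      exact hp.one_lt.not_ge (Nat.le_of_dvd one_pos h1)
    · have h1 : IsPGroup p (⊤ : Subgroup K) := by rw [← h]; exact P.2
      exact h1.of_equiv Subgroup.topEquiv

end

end Pool.Agent.H91
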