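import Pool.Agent.H21.NC.Defs

/-!
# Elementary `L^{4/3}` theory of a tracial vector (job L of MP_25d1d3_an)
-/

open MeasureTheory ENNReal NNReal
open scoped InnerProductSpace

namespace Pool.Agent.H21.NC

variable {H : Type*} [NormedAddCommGroup H] [InnerProductSpace ℂ H] [CompleteSpace H]

variable {M : VonNeumannAlgebra H} {Ω : H}

/-! ### General lemmas -/

theorem cfc_mem {a : H →L[ℂ] H} (ha : a ∈ M) (f : ℝ → ℝ) : cfc f a ∈ M := by
  rw [← M.commutant_commutant, VonNeumannAlgebra.mem_commutant_iff]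
  intro g hg
  have h1 : a * g = g * a := (VonNeumannAlgebra.mem_commutant_iff.1 hg) a ha
  exact ((show Commute a g from h1).cfc_real f).symm

theorem spec_nonneg {a : H →L[ℂ] H} (ha : 0 ≤ a) {t : ℝ} (ht : t ∈ spectrum ℝ a) : 0 ≤ t :=
  spectrum_nonneg_of_nonneg ha ht

theorem tr_mul (x y : H →L[ℂ] H) : tr Ω (x * y) = ⟪star x Ω, y Ω⟫_ℂ := by
  rw [tr, ContinuousLinearMap.star_eq_adjoint, ContinuousLinearMap.adjoint_inner_left]
  rfl

theorem norm_tr_mul_le (x y : H →L[ℂ] H) : ‖tr Ω (x * y)‖ ≤ ‖star x Ω‖ * ‖y Ω‖ := by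
  rw [tr_mul]; exact norm_inner_le_norm _ _

theorem norm_sq_vacuum (x : H →L[ℂ] H) : ‖x Ω‖ ^ 2 = (tr Ω (star x * x)).re := by
  rw [tr_mul, star_star, ← inner_self_eq_norm_sq (𝕜 := ℂ)]
  rfl

theorem tr_comm (hΩ : IsTraceVector M Ω) {x y : H →L[ℂ] H} (hx : x ∈ M) (hy : y ∈ M) :
    tr Ω (x * y) = tr Ω (y * x) := hΩ.trace x hx y hy

theorem tr_add (x y : H →L[ℂ] H) : tr Ω (x + y) = tr Ω x + tr Ω y := by
  rw [tr, ContinuousLinearMap.add_apply, inner_add_right]; rfl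

theorem tr_smul (c : ℂ) (x : H →L[ℂ] H) : tr Ω (c • x) = c * tr Ω x := by
  rw [tr, ContinuousLinearMap.smul_apply, inner_smul_right]; rfl

theorem tr_star (x : H →L[ℂ] H) : tr Ω (star x) = star (tr Ω x) := by
  rw [tr, tr, ContinuousLinearMap.star_eq_adjoint, ContinuousLinearMap.adjoint_inner_right]
  exact (inner_conj_symm _ _).symm

theorem tr_algebraMap (hΩ : IsTraceVector M Ω) (r : ℝ) :
    (tr Ω (algebraMap ℝ (H →L[ℂ] H) r)).re = r := by
  have h1 : algebraMap ℝ (H →L[ℂ] H) r = (r : ℂ) • (1 : H →L[ℂ] H) := by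
    rw [Algebra.algebraMap_eq_smul_one]
    ext v
    simp
  rw [h1, tr_smul, tr]
  have h2 : ⟪Ω, (1 : H →L[ℂ] H) Ω⟫_ℂ = 1 := by
    change ⟪Ω, Ω⟫_ℂ = 1
    rw [inner_self_eq_norm_sq_to_K, hΩ.norm_one]
    simp
  rw [h2, mul_one, Complex.ofReal_re]

theorem re_tr_mono {x y : H →L[ℂ] H} (h : x ≤ y) : (tr Ω x).re ≤ (tr Ω y).re := by
  have h1 := (ContinuousLinearMap.le_def x y).1 h
  have h2 := h1.re_inner_nonneg_right Ω
  rw [ContinuousLinearMap.sub_apply, inner_sub_right, map_sub] at h2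
  exact sub_nonneg.1 h2

theorem re_tr_nonneg {x : H →L[ℂ] H} (h : 0 ≤ x) : 0 ≤ (tr Ω x).re := by
  have := re_tr_mono (Ω := Ω) h
  simpa [tr] using this

theorem re_tr_cfc_le_add (hΩ : IsTraceVector M Ω) {a : H →L[ℂ] H} (ha : IsSelfAdjoint a)
    {f g : ℝ → ℝ} {c : ℝ} (hf : ContinuousOn f (spectrum ℝ a)) (hg : ContinuousOn g (spectrum ℝ a))
    (h : ∀ t ∈ spectrum ℝ a, f t ≤ g t + c) :
    (tr Ω (cfc f a)).re ≤ (tr Ω (cfc g a)).re + c := by
  have h1 : cfc f a ≤ cfc (fun t => g t + c) a :=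
    cfc_mono h hf (hg.add continuousOn_const)
  have h2 : cfc (fun t => g t + c) a = cfc g a + algebraMap ℝ _ c :=
    cfc_add_const c g a hg ha
  have h3 := re_tr_mono (Ω := Ω) h1
  rw [h2, tr_add, Complex.add_re, tr_algebraMap hΩ] at h3
  exact h3

theorem re_tr_cfc_le {a : H →L[ℂ] H}
    {f g : ℝ → ℝ} (hf : ContinuousOn f (spectrum ℝ a)) (hg : ContinuousOn g (spectrum ℝ a))
    (h : ∀ t ∈ spectrum ℝ a, f t ≤ g t) :
    (tr Ω (cfc f a)).re ≤ (tr Ω (cfc g a)).re :=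
  re_tr_mono (cfc_mono h hf hg)

/-! ### The two norms -/

theorem cont_rpow (ε : ℝ) (hε : 0 < ε) (s : ℝ) : Continuous fun t : ℝ => (|t| + ε) ^ s := by
  refine Continuous.rpow_const (by fun_prop) fun t => Or.inl ?_
  have := abs_nonneg t
  positivity

theorem cont_rpow_abs (s : ℝ) (hs : 0 ≤ s) : Continuous fun t : ℝ => |t| ^ s :=
  Continuous.rpow_const (by fun_prop) fun t => Or.inr hs

/-- `N x = τ(|x|^{4/3})`. -/
noncomputable def NN (Ω : H) (x : H →L[ℂ] H) : ℝ :=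
  (tr Ω (cfc (fun t : ℝ => |t| ^ (2 / 3 : ℝ)) (star x * x))).re

theorem NN_nonneg (x : H →L[ℂ] H) : 0 ≤ NN Ω x :=
  re_tr_nonneg (cfc_nonneg fun t _ => by positivity)

theorem pnorm_eq (x : H →L[ℂ] H) : pnorm Ω (4 / 3) x = NN Ω x ^ (3 / 4 : ℝ) := by
  have h0 : 0 ≤ star x * x := star_mul_self_nonneg x
  have h1 : CFC.rpow (star x * x) ((4 / 3 : ℝ) / 2) =
      cfc (fun t : ℝ => |t| ^ (2 / 3 : ℝ)) (star x * x) := by
    have h2 := CFC.rpow_eq_cfc_real (a := star x * x) (y := (4 / 3 : ℝ) / 2) h0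
    refine h2.trans (cfc_congr fun t ht => ?_)
    have := spec_nonneg h0 ht
    change t ^ ((4 / 3 : ℝ) / 2) = |t| ^ (2 / 3 : ℝ)
    rw [abs_of_nonneg this]
    norm_num
  rw [pnorm, h1, NN]
  norm_num

theorem pnorm_four_eq (x : H →L[ℂ] H) : pnorm Ω 4 x = ‖(star x * x) Ω‖ ^ (1 / 2 : ℝ) := by
  have h0 : 0 ≤ star x * x := star_mul_self_nonneg x
  have hsa : IsSelfAdjoint (star x * x) := IsSelfAdjoint.of_nonneg h0
  have h1 : CFC.rpow (star x * x) ((4 : ℝ) / 2) = star (star x * x) * (star x * x) := by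
    have h2 := CFC.rpow_natCast (star x * x) 2 h0
    rw [hsa.star_eq, ← pow_two]
    refine Eq.trans ?_ h2
    have : ((4 : ℝ) / 2) = ((2 : ℕ) : ℝ) := by norm_num
    rw [this]; rfl
  rw [pnorm, h1, ← norm_sq_vacuum, ← Real.rpow_natCast, ← Real.rpow_mul (norm_nonneg _)]
  norm_num

theorem pnorm_nonneg' (x : H →L[ℂ] H) : 0 ≤ pnorm Ω (4 / 3) x := by
  rw [pnorm_eq]; exact Real.rpow_nonneg (NN_nonneg x) _

theorem pnorm_four_nonneg (x : H →L[ℂ] H) : 0 ≤ pnorm Ω 4 x := by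
  rw [pnorm_four_eq]; positivity

theorem pnorm_four_pow (hΩ : IsTraceVector M Ω) {x : H →L[ℂ] H} (hx : x ∈ M) :
    pnorm Ω 4 x ^ 4 = ‖(star x * x) Ω‖ ^ 2 := by
  rw [pnorm_four_eq, ← Real.rpow_natCast, ← Real.rpow_mul (norm_nonneg _), ← Real.rpow_natCast]
  norm_num

theorem norm_star_mul_self_comm (hΩ : IsTraceVector M Ω) {x : H →L[ℂ] H} (hx : x ∈ M) :
    ‖(x * star x) Ω‖ = ‖(star x * x) Ω‖ := by
  have hs : star x ∈ M := star_mem hx
  have h1 : ‖(x * star x) Ω‖ ^ 2 = ‖(star x * x) Ω‖ ^ 2 := by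
    rw [norm_sq_vacuum, norm_sq_vacuum]
    congr 1
    have h2 : star (x * star x) * (x * star x) = x * (star x * x * star x) := by
      rw [star_mul, star_star]; noncomm_ring
    have h3 : star (star x * x) * (star x * x) = (star x * x * star x) * x := by
      rw [star_mul, star_star]; noncomm_ring
    rw [h2, h3]
    exact tr_comm hΩ hx (mul_mem (mul_mem hs hx) hs)
  have := (sq_eq_sq₀ (norm_nonneg _) (norm_nonneg _)).1 h1
  exact this

theorem pnorm_four_star (hΩ : IsTraceVector M Ω) {x : H →L[ℂ] H} (hx : x ∈ M) :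
    pnorm Ω 4 (star x) = pnorm Ω 4 x := by
  rw [pnorm_four_eq, pnorm_four_eq, star_star, norm_star_mul_self_comm hΩ hx]

/-! ### Hölder's inequality -/

theorem cfc_mul' {a : H →L[ℂ] H} {f g : ℝ → ℝ} (hf : Continuous f) (hg : Continuous g) :
    cfc f a * cfc g a = cfc (fun t => f t * g t) a :=
  (cfc_mul f g a hf.continuousOn hg.continuousOn).symm

theorem cfc_self {a : H →L[ℂ] H} (ha : IsSelfAdjoint a) : a = cfc (fun t : ℝ => t) a :=
  (cfc_id' ℝ a).symm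

theorem rpow_add_le_add {t ε : ℝ} (hε : 0 < ε) :
    (|t| + ε) ^ (2 / 3 : ℝ) ≤ |t| ^ (2 / 3 : ℝ) + ε ^ (2 / 3 : ℝ) :=
  Real.rpow_add_le_add_rpow (abs_nonneg t) hε.le (by norm_num) (by norm_num)

theorem cfc_selfAdjoint (f : ℝ → ℝ) (a : H →L[ℂ] H) : star (cfc f a) = cfc f a :=
  (IsSelfAdjoint.cfc (f := f) (a := a)).star_eq

theorem holder_aux (hΩ : IsTraceVector M Ω) {x y : H →L[ℂ] H} (hx : x ∈ M) (hy : y ∈ M)
    {ε : ℝ} (hε : 0 < ε) :
    ‖tr Ω (x * y)‖ ^ 2 ≤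
      NN Ω x * ((NN Ω x + ε ^ (2 / 3 : ℝ)) ^ (1 / 2 : ℝ) * ‖(star y * y) Ω‖) := by
  have hsx : star x ∈ M := star_mem hx
  have hsy : star y ∈ M := star_mem hy
  set a : H →L[ℂ] H := star x * x with ha
  have haM : a ∈ M := mul_mem hsx hx
  have ha0 : 0 ≤ a := star_mul_self_nonneg x
  have hasa : IsSelfAdjoint a := IsSelfAdjoint.of_nonneg ha0
  set S : H →L[ℂ] H := cfc (fun t : ℝ => (|t| + ε) ^ (-1 / 6 : ℝ)) a with hS
  set Q : H →L[ℂ] H := cfc (fun t : ℝ => (|t| + ε) ^ (1 / 6 : ℝ)) a with hQ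
  have hSM : S ∈ M := cfc_mem haM _
  have hQM : Q ∈ M := cfc_mem haM _
  have hSs : star S = S := cfc_selfAdjoint _ _
  have hQs : star Q = Q := cfc_selfAdjoint _ _
  have cS := cont_rpow ε hε (-1 / 6)
  have cQ := cont_rpow ε hε (1 / 6)
  have pos : ∀ t : ℝ, 0 < |t| + ε := fun t => by have := abs_nonneg t; linarith
  have hSQ : S * Q = 1 := by
    rw [hS, hQ, cfc_mul' cS cQ, ← cfc_const_one ℝ a]
    refine cfc_congr fun t _ => ?_
    change (|t| + ε) ^ (-1 / 6 : ℝ) * (|t| + ε) ^ (1 / 6 : ℝ) = 1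
    rw [← Real.rpow_add (pos t)]
    norm_num
  have h1 : x * y = (x * S) * (Q * y) := by
    rw [mul_assoc, ← mul_assoc S, hSQ, one_mul]
  have h2 : ‖tr Ω (x * y)‖ ≤ ‖star (x * S) Ω‖ * ‖(Q * y) Ω‖ := by
    rw [h1]; exact norm_tr_mul_le _ _
  have h3 : ‖star (x * S) Ω‖ ^ 2 ≤ NN Ω x := by
    rw [norm_sq_vacuum, star_star, tr_comm hΩ (mul_mem hx hSM) (star_mem (mul_mem hx hSM))]
    have e1 : star (x * S) * (x * S) =
        cfc (fun t : ℝ => (|t| + ε) ^ (-1 / 6 : ℝ) * t * (|t| + ε) ^ (-1 / 6 : ℝ)) a := by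
      rw [star_mul, hSs]
      have : S * star x * (x * S) = S * a * S := by rw [ha]; noncomm_ring
      have e0 : S * a = cfc (fun t : ℝ => (|t| + ε) ^ (-1 / 6 : ℝ) * t) a := by
        rw [hS]
        nth_rewrite 2 [cfc_self hasa]
        exact cfc_mul' cS continuous_id'
      rw [this, e0, hS]
      exact cfc_mul' (cS.mul continuous_id') cS
    rw [e1, NN]
    refine re_tr_cfc_le ((cS.mul continuous_id').mul cS).continuousOn
      (cont_rpow_abs _ (by norm_num)).continuousOn fun t ht => ?_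
    have ht0 := spec_nonneg ha0 ht
    have e2 : (|t| + ε) ^ (-1 / 6 : ℝ) * t * (|t| + ε) ^ (-1 / 6 : ℝ) =
        t * (|t| + ε) ^ (-1 / 3 : ℝ) := by
      have : (|t| + ε) ^ (-1 / 3 : ℝ) =
          (|t| + ε) ^ (-1 / 6 : ℝ) * (|t| + ε) ^ (-1 / 6 : ℝ) := by
        rw [← Real.rpow_add (pos t)]; norm_num
      rw [this]; ring
    rw [e2, abs_of_nonneg ht0]
    rcases ht0.eq_or_lt with h0 | h0
    · rw [← h0]; simp
    · calc t * (t + ε) ^ (-1 / 3 : ℝ) ≤ t * t ^ (-1 / 3 : ℝ) := by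
            refine mul_le_mul_of_nonneg_left ?_ ht0
            exact Real.rpow_le_rpow_of_nonpos h0 (by linarith) (by norm_num)
        _ = t ^ (2 / 3 : ℝ) := by
            rw [← Real.rpow_one_add' ht0 (by norm_num)]; norm_num
  have h4 : ‖(Q * y) Ω‖ ^ 2 ≤ (NN Ω x + ε ^ (2 / 3 : ℝ)) ^ (1 / 2 : ℝ) * ‖(star y * y) Ω‖ := by
    rw [norm_sq_vacuum]
    have e1 : star (Q * y) * (Q * y) = star y * (Q * Q * y) := by
      rw [star_mul, hQs]; noncomm_ring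
    rw [e1, tr_comm hΩ hsy (mul_mem (mul_mem hQM hQM) hy)]
    have e2 : Q * Q * y * star y = (Q * Q) * (y * star y) := by noncomm_ring
    rw [e2]
    refine (Complex.re_le_norm _).trans ((norm_tr_mul_le _ _).trans ?_)
    rw [norm_star_mul_self_comm hΩ hy]
    refine mul_le_mul_of_nonneg_right ?_ (norm_nonneg _)
    have e3 : star (Q * Q) = Q * Q := by rw [star_mul, hQs]
    rw [e3]
    have e4 : ‖(Q * Q) Ω‖ ^ 2 ≤ NN Ω x + ε ^ (2 / 3 : ℝ) := by
      rw [norm_sq_vacuum, e3]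
      have e5 : Q * Q * (Q * Q) = cfc (fun t : ℝ => (|t| + ε) ^ (2 / 3 : ℝ)) a := by
        rw [hQ, cfc_mul' cQ cQ]
        refine (cfc_mul' (cQ.mul cQ) (cQ.mul cQ)).trans (cfc_congr fun t _ => ?_)
        change (|t| + ε) ^ (1 / 6 : ℝ) * (|t| + ε) ^ (1 / 6 : ℝ) *
          ((|t| + ε) ^ (1 / 6 : ℝ) * (|t| + ε) ^ (1 / 6 : ℝ)) = (|t| + ε) ^ (2 / 3 : ℝ)
        rw [← Real.rpow_add (pos t), ← Real.rpow_add (pos t)]
        norm_num
      rw [e5, NN]
      exact re_tr_cfc_le_add hΩ hasa (cont_rpow ε hε _).continuousOn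
        (cont_rpow_abs _ (by norm_num)).continuousOn fun t _ => rpow_add_le_add hε
    have e6 : 0 ≤ NN Ω x + ε ^ (2 / 3 : ℝ) := by
      have := NN_nonneg (Ω := Ω) x; positivity
    rw [← Real.sqrt_eq_rpow]
    exact Real.le_sqrt_of_sq_le e4
  calc ‖tr Ω (x * y)‖ ^ 2 ≤ (‖star (x * S) Ω‖ * ‖(Q * y) Ω‖) ^ 2 :=
        pow_le_pow_left₀ (norm_nonneg _) h2 2
    _ = ‖star (x * S) Ω‖ ^ 2 * ‖(Q * y) Ω‖ ^ 2 := mul_pow _ _ _
    _ ≤ _ := mul_le_mul h3 h4 (by positivity) (NN_nonneg x)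

theorem holder (hΩ : IsTraceVector M Ω) {x y : H →L[ℂ] H} (hx : x ∈ M) (hy : y ∈ M) :
    ‖tr Ω (x * y)‖ ≤ pnorm Ω (4 / 3) x * pnorm Ω 4 y := by
  have hN := NN_nonneg (Ω := Ω) x
  have h1 : ‖tr Ω (x * y)‖ ^ 2 ≤
      NN Ω x * ((NN Ω x) ^ (1 / 2 : ℝ) * ‖(star y * y) Ω‖) := by
    have hc : Continuous fun ε : ℝ =>
        NN Ω x * ((NN Ω x + ε ^ (2 / 3 : ℝ)) ^ (1 / 2 : ℝ) * ‖(star y * y) Ω‖) := by
      have c1 : Continuous fun ε : ℝ => ε ^ (2 / 3 : ℝ) :=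
        continuous_id.rpow_const fun t => Or.inr (by norm_num)
      have c2 : Continuous fun ε : ℝ => (NN Ω x + ε ^ (2 / 3 : ℝ)) ^ (1 / 2 : ℝ) :=
        (continuous_const.add c1).rpow_const fun t => Or.inr (by norm_num)
      exact continuous_const.mul (c2.mul continuous_const)
    have h2 := (hc.tendsto 0).mono_left (nhdsWithin_le_nhds (s := Set.Ioi 0))
    have h3 : ((0 : ℝ) ^ (2 / 3 : ℝ)) = 0 := Real.zero_rpow (by norm_num)
    simp only [h3, add_zero] at h2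
    exact ge_of_tendsto h2 (eventually_nhdsWithin_of_forall fun ε hε => holder_aux hΩ hx hy hε)
  have h2 : (pnorm Ω (4 / 3) x * pnorm Ω 4 y) ^ 2 =
      NN Ω x * ((NN Ω x) ^ (1 / 2 : ℝ) * ‖(star y * y) Ω‖) := by
    rw [pnorm_eq, pnorm_four_eq, mul_pow, ← Real.rpow_natCast, ← Real.rpow_natCast,
      ← Real.rpow_mul hN, ← Real.rpow_mul (norm_nonneg _), ← mul_assoc,
      ← Real.rpow_one_add' hN (by norm_num)]
    norm_num
  rw [← h2] at h1
  exact (pow_le_pow_iff_left₀ (norm_nonneg _)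
    (mul_nonneg (pnorm_nonneg' x) (pnorm_four_nonneg y)) two_ne_zero).1 h1

/-! ### Duality -/

theorem rpow_key {t ε : ℝ} (hε : 0 < ε) (ht : 0 ≤ t) :
    |t| ^ (2 / 3 : ℝ) ≤ (|t| + ε) ^ (-1 / 3 : ℝ) * t + ε ^ (2 / 3 : ℝ) := by
  rw [abs_of_nonneg ht]
  have h0 : 0 < t + ε := by linarith
  have h1 : t ^ (2 / 3 : ℝ) ≤ (t + ε) ^ (2 / 3 : ℝ) :=
    Real.rpow_le_rpow ht (by linarith) (by norm_num)
  have h2 : (t + ε) ^ (2 / 3 : ℝ) = (t + ε) ^ (-1 / 3 : ℝ) * (t + ε) := by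
    nth_rewrite 3 [← Real.rpow_one (t + ε)]
    rw [← Real.rpow_add h0]; norm_num
  have h3 : (t + ε) ^ (-1 / 3 : ℝ) ≤ ε ^ (-1 / 3 : ℝ) :=
    Real.rpow_le_rpow_of_nonpos hε (by linarith) (by norm_num)
  have h4 : ε ^ (2 / 3 : ℝ) = ε ^ (-1 / 3 : ℝ) * ε := by
    nth_rewrite 3 [← Real.rpow_one ε]
    rw [← Real.rpow_add hε]; norm_num
  have h5 := mul_le_mul_of_nonneg_right h3 hε.le
  rw [h2, mul_add] at h1
  linarith

theorem rpow_key2 {t ε : ℝ} (hε : 0 < ε) (ht : 0 ≤ t) :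
    (|t| + ε) ^ (-1 / 3 : ℝ) * t * (|t| + ε) ^ (-1 / 3 : ℝ) *
      ((|t| + ε) ^ (-1 / 3 : ℝ) * t * (|t| + ε) ^ (-1 / 3 : ℝ)) ≤ |t| ^ (2 / 3 : ℝ) := by
  rw [abs_of_nonneg ht]
  have h0 : 0 < t + ε := by linarith
  rcases ht.eq_or_lt with h | h
  · rw [← h]; simp
  · have h3 : (t + ε) ^ (-1 / 3 : ℝ) ≤ t ^ (-1 / 3 : ℝ) :=
      Real.rpow_le_rpow_of_nonpos h (by linarith) (by norm_num)
    have h4 : (t + ε) ^ (-1 / 3 : ℝ) * t * (t + ε) ^ (-1 / 3 : ℝ) ≤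
        t ^ (-1 / 3 : ℝ) * t * t ^ (-1 / 3 : ℝ) := by gcongr
    have h5 : t ^ (-1 / 3 : ℝ) * t * t ^ (-1 / 3 : ℝ) = t ^ (1 / 3 : ℝ) := by
      nth_rewrite 2 [← Real.rpow_one t]
      rw [← Real.rpow_add h, ← Real.rpow_add h]; norm_num
    rw [h5] at h4
    have h6 : t ^ (2 / 3 : ℝ) = t ^ (1 / 3 : ℝ) * t ^ (1 / 3 : ℝ) := by
      rw [← Real.rpow_add h]; norm_num
    rw [h6]
    exact mul_le_mul h4 h4 (by positivity) (by positivity)

theorem pnorm_le_of_forall_aux (hΩ : IsTraceVector M Ω) {x : H →L[ℂ] H} (hx : x ∈ M) {C : ℝ}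
    (hC : 0 ≤ C) (h : ∀ y ∈ M, ‖tr Ω (x * y)‖ ≤ C * pnorm Ω 4 y) {ε : ℝ} (hε : 0 < ε) :
    NN Ω x ≤ C * NN Ω x ^ (1 / 4 : ℝ) + ε ^ (2 / 3 : ℝ) := by
  have hsx : star x ∈ M := star_mem hx
  set a : H →L[ℂ] H := star x * x with ha
  have haM : a ∈ M := mul_mem hsx hx
  have ha0 : 0 ≤ a := star_mul_self_nonneg x
  have hasa : IsSelfAdjoint a := IsSelfAdjoint.of_nonneg ha0
  set T : H →L[ℂ] H := cfc (fun t : ℝ => (|t| + ε) ^ (-1 / 3 : ℝ)) a with hT
  have hTM : T ∈ M := cfc_mem haM _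
  have hTs : star T = T := cfc_selfAdjoint _ _
  have cT := cont_rpow ε hε (-1 / 3)
  have e0 : T * a = cfc (fun t : ℝ => (|t| + ε) ^ (-1 / 3 : ℝ) * t) a := by
    rw [hT]
    nth_rewrite 2 [cfc_self hasa]
    exact cfc_mul' cT continuous_id'
  have hyM : T * star x ∈ M := mul_mem hTM hsx
  have h1 : tr Ω (x * (T * star x)) = tr Ω (T * a) := by
    rw [tr_comm hΩ hx hyM, ha, mul_assoc]
  have h2 : NN Ω x ≤ (tr Ω (T * a)).re + ε ^ (2 / 3 : ℝ) := by
    rw [e0, NN]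
    exact re_tr_cfc_le_add hΩ hasa (cont_rpow_abs _ (by norm_num)).continuousOn
      (cT.mul continuous_id').continuousOn fun t ht => rpow_key hε (spec_nonneg ha0 ht)
  have h3 : (tr Ω (T * a)).re ≤ C * pnorm Ω 4 (T * star x) := by
    rw [← h1]; exact (Complex.re_le_norm _).trans (h _ hyM)
  have h4 : pnorm Ω 4 (T * star x) ^ 4 ≤ NN Ω x := by
    rw [pnorm_four_pow hΩ hyM, ← norm_star_mul_self_comm hΩ hyM]
    have e1 : T * star x * star (T * star x) =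
        cfc (fun t : ℝ => (|t| + ε) ^ (-1 / 3 : ℝ) * t * (|t| + ε) ^ (-1 / 3 : ℝ)) a := by
      have : T * star x * star (T * star x) = T * a * T := by
        rw [star_mul, star_star, hTs, ha]; noncomm_ring
      rw [this, e0, hT]
      exact cfc_mul' (cT.mul continuous_id') cT
    have e2 := cfc_mul' (a := a) ((cT.mul continuous_id').mul cT) ((cT.mul continuous_id').mul cT)
    rw [norm_sq_vacuum, e1, cfc_selfAdjoint, NN]
    refine (congrArg (fun z => (tr Ω z).re) e2).le.trans ?_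
    exact re_tr_cfc_le
      (((cT.mul continuous_id').mul cT).mul ((cT.mul continuous_id').mul cT)).continuousOn
      (cont_rpow_abs _ (by norm_num)).continuousOn fun t ht => rpow_key2 hε (spec_nonneg ha0 ht)
  have h5 : pnorm Ω 4 (T * star x) ≤ NN Ω x ^ (1 / 4 : ℝ) := by
    have h6 := Real.rpow_le_rpow (by have := pnorm_four_nonneg (Ω := Ω) (T * star x); positivity)
      h4 (show (0 : ℝ) ≤ 1 / 4 by norm_num)
    rwa [← Real.rpow_natCast, ← Real.rpow_mul (pnorm_four_nonneg _),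
      show ((4 : ℕ) : ℝ) * (1 / 4) = 1 by norm_num, Real.rpow_one] at h6
  have h6 := mul_le_mul_of_nonneg_left h5 hC
  linarith

theorem pnorm_le_of_forall (hΩ : IsTraceVector M Ω) {x : H →L[ℂ] H} (hx : x ∈ M) {C : ℝ}
    (hC : 0 ≤ C) (h : ∀ y ∈ M, ‖tr Ω (x * y)‖ ≤ C * pnorm Ω 4 y) : pnorm Ω (4 / 3) x ≤ C := by
  have hN := NN_nonneg (Ω := Ω) x
  have h1 : NN Ω x ≤ C * NN Ω x ^ (1 / 4 : ℝ) := by
    have hc : Continuous fun ε : ℝ => C * NN Ω x ^ (1 / 4 : ℝ) + ε ^ (2 / 3 : ℝ) :=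
      continuous_const.add (continuous_id.rpow_const fun t => Or.inr (by norm_num))
    have h2 := (hc.tendsto 0).mono_left (nhdsWithin_le_nhds (s := Set.Ioi 0))
    have h3 : ((0 : ℝ) ^ (2 / 3 : ℝ)) = 0 := Real.zero_rpow (by norm_num)
    simp only [h3, add_zero] at h2
    exact ge_of_tendsto h2
      (eventually_nhdsWithin_of_forall fun ε hε => pnorm_le_of_forall_aux hΩ hx hC h hε)
  rw [pnorm_eq]
  rcases hN.eq_or_lt with h0 | h0
  · rw [← h0, Real.zero_rpow (by norm_num)]; exact hC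
  · have h2 : NN Ω x = NN Ω x ^ (3 / 4 : ℝ) * NN Ω x ^ (1 / 4 : ℝ) := by
      rw [← Real.rpow_add h0]; norm_num
    have h3 : 0 < NN Ω x ^ (1 / 4 : ℝ) := by positivity
    exact le_of_mul_le_mul_right (h2.symm.le.trans h1) h3

theorem pnorm_star_le (hΩ : IsTraceVector M Ω) {x : H →L[ℂ] H} (hx : x ∈ M) :
    pnorm Ω (4 / 3) (star x) ≤ pnorm Ω (4 / 3) x := by
  refine pnorm_le_of_forall hΩ (star_mem hx) (pnorm_nonneg' x) fun y hy => ?_
  have h1 : tr Ω (star x * y) = star (tr Ω (x * star y)) := by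
    rw [← tr_star, star_mul, star_star]
    exact tr_comm hΩ (star_mem hx) hy
  rw [h1, norm_star, ← pnorm_four_star hΩ hy]
  exact holder hΩ hx (star_mem hy)

theorem pnorm_star (hΩ : IsTraceVector M Ω) {x : H →L[ℂ] H} (hx : x ∈ M) :
    pnorm Ω (4 / 3) (star x) = pnorm Ω (4 / 3) x := by
  refine le_antisymm (pnorm_star_le hΩ hx) ?_
  have := pnorm_star_le hΩ (star_mem hx)
  rwa [star_star] at this

theorem pnorm_four_le_of_forall (hΩ : IsTraceVector M Ω) {x : H →L[ℂ] H} (hx : x ∈ M) {C : ℝ}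
    (hC : 0 ≤ C) (h : ∀ y ∈ M, ‖tr Ω (x * y)‖ ≤ C * pnorm Ω (4 / 3) y) : pnorm Ω 4 x ≤ C := by
  have hsx : star x ∈ M := star_mem hx
  have hP := pnorm_four_nonneg (Ω := Ω) x
  set b : H →L[ℂ] H := x * star x with hb
  have hb0 : 0 ≤ b := mul_star_self_nonneg x
  have hbsa : IsSelfAdjoint b := IsSelfAdjoint.of_nonneg hb0
  have hbM : b ∈ M := mul_mem hx hsx
  have hyM : star x * x * star x ∈ M := mul_mem (mul_mem hsx hx) hsx
  have hb2 : (tr Ω (b * b)).re = pnorm Ω 4 x ^ 4 := by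
    rw [pnorm_four_pow hΩ hx, ← norm_star_mul_self_comm hΩ hx, norm_sq_vacuum, ← hb,
      hbsa.star_eq]
  have h1 : pnorm Ω 4 x ^ 4 ≤ C * pnorm Ω (4 / 3) (star x * x * star x) := by
    rw [← hb2]
    have : b * b = x * (star x * x * star x) := by rw [hb]; noncomm_ring
    rw [this]
    exact (Complex.re_le_norm _).trans (h _ hyM)
  have h2 : pnorm Ω (4 / 3) (star x * x * star x) = pnorm Ω 4 x ^ 3 := by
    have e1 : star (star x * x * star x) * (star x * x * star x) =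
        cfc (fun t : ℝ => t * t * t) b := by
      have e2 : star (star x * x * star x) * (star x * x * star x) = b * b * b := by
        simp only [star_mul, star_star, hb]; noncomm_ring
      have e3 : cfc (fun t : ℝ => t * t * t) b = b * b * b := by
        have f1 := cfc_mul' (a := b) (continuous_id'.mul continuous_id') continuous_id'
        have f2 := cfc_mul' (a := b) continuous_id' continuous_id'
        refine f1.symm.trans ?_
        refine (congrArg (fun z => z * cfc (fun t : ℝ => t) b) f2.symm).trans ?_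
        simp only [← cfc_self hbsa]
      rw [e2, e3]
    have e4 : NN Ω (star x * x * star x) = pnorm Ω 4 x ^ 4 := by
      rw [NN, e1, ← hb2]
      rw [← cfc_comp' (fun t : ℝ => |t| ^ (2 / 3 : ℝ)) (fun t : ℝ => t * t * t) b
        (cont_rpow_abs _ (by norm_num)).continuousOn (by fun_prop) hbsa]
      have e5 : b * b = cfc (fun t : ℝ => t * t) b := by
        rw [← cfc_mul' continuous_id' continuous_id', ← cfc_self hbsa]
      rw [e5]
      congr 2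
      refine cfc_congr fun t ht => ?_
      have ht0 := spec_nonneg hb0 ht
      change |t * t * t| ^ (2 / 3 : ℝ) = t * t
      rw [abs_of_nonneg (by positivity)]
      have : t * t * t = t ^ (3 : ℝ) := by
        rw [show (3 : ℝ) = ((3 : ℕ) : ℝ) by norm_num, Real.rpow_natCast]; ring
      rw [this, ← Real.rpow_mul ht0, show (3 : ℝ) * (2 / 3) = ((2 : ℕ) : ℝ) by norm_num,
        Real.rpow_natCast]
      ring
    rw [pnorm_eq, e4, ← Real.rpow_natCast, ← Real.rpow_mul hP, ← Real.rpow_natCast]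
    norm_num
  rw [h2] at h1
  rcases hP.eq_or_lt with h0 | h0
  · rw [← h0]; exact hC
  · have h3 : 0 < pnorm Ω 4 x ^ 3 := by positivity
    have h4 : pnorm Ω 4 x * pnorm Ω 4 x ^ 3 ≤ C * pnorm Ω 4 x ^ 3 := by
      calc _ = pnorm Ω 4 x ^ 4 := by ring
        _ ≤ _ := h1
    exact le_of_mul_le_mul_right h4 h3

theorem pnorm_add_le (hΩ : IsTraceVector M Ω) {x y : H →L[ℂ] H} (hx : x ∈ M) (hy : y ∈ M) :
    pnorm Ω (4 / 3) (x + y) ≤ pnorm Ω (4 / 3) x + pnorm Ω (4 / 3) y := by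
  refine pnorm_le_of_forall hΩ (add_mem hx hy) (add_nonneg (pnorm_nonneg' x) (pnorm_nonneg' y))
    fun z hz => ?_
  rw [add_mul, tr_add, add_mul]
  exact (norm_add_le _ _).trans (add_le_add (holder hΩ hx hz) (holder hΩ hy hz))

theorem holder' (hΩ : IsTraceVector M Ω) {x y : H →L[ℂ] H} (hx : x ∈ M) (hy : y ∈ M) :
    ‖tr Ω (x * y)‖ ≤ pnorm Ω 4 x * pnorm Ω (4 / 3) y := by
  rw [tr_comm hΩ hx hy, mul_comm]
  exact holder hΩ hy hx

theorem pnorm_four_add_le (hΩ : IsTraceVector M Ω) {x y : H →L[ℂ] H} (hx : x ∈ M) (hy : y ∈ M) :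
    pnorm Ω 4 (x + y) ≤ pnorm Ω 4 x + pnorm Ω 4 y := by
  refine pnorm_four_le_of_forall hΩ (add_mem hx hy)
    (add_nonneg (pnorm_four_nonneg x) (pnorm_four_nonneg y)) fun z hz => ?_
  rw [add_mul, tr_add, add_mul]
  exact (norm_add_le _ _).trans (add_le_add (holder' hΩ hx hz) (holder' hΩ hy hz))

theorem norm_vacuum_le_pnorm_four (hΩ : IsTraceVector M Ω) {y : H →L[ℂ] H} (hy : y ∈ M) :
    ‖y Ω‖ ≤ pnorm Ω 4 y := by
  rw [pnorm_four_eq, ← Real.sqrt_eq_rpow]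
  refine Real.le_sqrt_of_sq_le ?_
  rw [norm_sq_vacuum]
  refine (Complex.re_le_norm _).trans ?_
  have h1 : ‖tr Ω (star y * y)‖ ≤ ‖Ω‖ * ‖(star y * y) Ω‖ := norm_inner_le_norm _ _
  rwa [hΩ.norm_one, one_mul] at h1

theorem pnorm_le_norm_vacuum (hΩ : IsTraceVector M Ω) {x : H →L[ℂ] H} (hx : x ∈ M) :
    pnorm Ω (4 / 3) x ≤ ‖x Ω‖ := by
  refine pnorm_le_of_forall hΩ hx (norm_nonneg _) fun y hy => ?_
  rw [tr_comm hΩ hx hy, mul_comm]
  refine (norm_tr_mul_le _ _).trans ?_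
  refine mul_le_mul_of_nonneg_right ?_ (norm_nonneg _)
  rw [← pnorm_four_star hΩ hy]
  exact norm_vacuum_le_pnorm_four hΩ (star_mem hy)

theorem eq_zero_of_pnorm_eq_zero (hΩ : IsTraceVector M Ω) {x : H →L[ℂ] H} (hx : x ∈ M)
    (h : pnorm Ω (4 / 3) x = 0) : x = 0 := by
  have h1 := holder hΩ hx (star_mem hx)
  rw [h, zero_mul] at h1
  have h2 : ‖star x Ω‖ ^ 2 ≤ 0 := by
    rw [norm_sq_vacuum, star_star]
    exact (Complex.re_le_norm _).trans h1
  have h3 : star x Ω = 0 := by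
    rw [← norm_eq_zero]
    exact pow_eq_zero_iff two_ne_zero |>.1 (le_antisymm h2 (by positivity))
  have h4 := hΩ.separating _ (star_mem hx) h3
  simpa using congrArg star h4

end Pool.Agent.H21.NC
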