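import Pool.Agent.H91.NCL

/-!
# Truncations and the completion (job L of MP_25d1d3_an)
-/

open MeasureTheory ENNReal NNReal
open scoped InnerProductSpace

namespace Pool.Agent.H21.NC

variable {H : Type*} [NormedAddCommGroup H] [InnerProductSpace ℂ H] [CompleteSpace H]

variable {M : VonNeumannAlgebra H} {Ω : H}

/-! ### Truncations -/

theorem trunc_mem {h : H →L[ℂ] H} (hh : h ∈ M) (hsa : IsSelfAdjoint h) (k : ℤ) :
    trunc k h ∈ M := cfc_mem hh _

theorem cont_clamp (k : ℤ) :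
    Continuous fun x : ℝ => max (-(2 : ℝ) ^ k) (min x ((2 : ℝ) ^ k)) := by fun_prop

theorem cont_trunc (k : ℤ) :
    Continuous fun x : ℝ => x - max (-(2 : ℝ) ^ k) (min x ((2 : ℝ) ^ k)) := by fun_prop

theorem norm_sub_trunc_le {h : H →L[ℂ] H} (hsa : IsSelfAdjoint h) (k : ℤ) :
    ‖h - trunc k h‖ ≤ (2 : ℝ) ^ k := by
  have h1 : h - trunc k h = cfc (fun x : ℝ => max (-(2 : ℝ) ^ k) (min x ((2 : ℝ) ^ k))) h := by
    have h2 := cfc_sub (fun t : ℝ => t)
      (fun x : ℝ => x - max (-(2 : ℝ) ^ k) (min x ((2 : ℝ) ^ k))) h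
      continuous_id'.continuousOn (cont_trunc k).continuousOn
    rw [← cfc_self hsa] at h2
    rw [trunc, ← h2]
    exact cfc_congr fun t _ => by ring
  rw [h1]
  have hk : (0 : ℝ) < (2 : ℝ) ^ k := by positivity
  refine norm_cfc_le hk.le fun t _ => ?_
  rw [Real.norm_eq_abs, abs_le]
  exact ⟨le_max_left _ _, max_le (by linarith) (min_le_right _ _)⟩

theorem sum_four_zpow_le (F : Finset ℤ) :
    ∀ b : ℝ, 0 ≤ b → (∀ k ∈ F, (4 : ℝ) ^ k ≤ b) → ∑ k ∈ F, (4 : ℝ) ^ k ≤ 4 / 3 * b := by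
  induction F using Finset.induction_on_max with
  | empty => intro b hb _; simp; linarith
  | insert a s hs ih =>
    intro b hb h
    have ha : a ∉ s := fun h => lt_irrefl _ (hs a h)
    rw [Finset.sum_insert ha]
    have h1 : (4 : ℝ) ^ a ≤ b := h a (Finset.mem_insert_self _ _)
    have h2 := ih ((4 : ℝ) ^ a / 4) (by positivity) fun k hk => by
      have h3 : k ≤ a - 1 := by have := hs k hk; omega
      have h4 : (4 : ℝ) ^ (a - 1) = (4 : ℝ) ^ a / 4 := by
        rw [zpow_sub_one₀ (by norm_num)]; rfl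
      rw [← h4]
      exact zpow_le_zpow_right₀ (by norm_num) h3
    linarith

theorem trunc_pointwise (F : Finset ℤ) (t : ℝ) :
    ∑ k ∈ F, (4 : ℝ) ^ k * ((t - max (-(2 : ℝ) ^ k) (min t ((2 : ℝ) ^ k))) *
      (t - max (-(2 : ℝ) ^ k) (min t ((2 : ℝ) ^ k)))) ≤ 4 / 3 * (t * t * (t * t)) := by
  classical
  have h1 : ∀ k ∈ F, (4 : ℝ) ^ k * ((t - max (-(2 : ℝ) ^ k) (min t ((2 : ℝ) ^ k))) *
      (t - max (-(2 : ℝ) ^ k) (min t ((2 : ℝ) ^ k)))) ≤
      if (2 : ℝ) ^ k ≤ |t| then (4 : ℝ) ^ k * (t * t) else 0 := by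
    intro k _
    have hk : (0 : ℝ) < (2 : ℝ) ^ k := by positivity
    split_ifs with h
    · refine mul_le_mul_of_nonneg_left ?_ (by positivity)
      rcases le_total 0 t with ht | ht
      · rw [abs_of_nonneg ht] at h
        rw [min_eq_right h, max_eq_right (by linarith)]
        nlinarith
      · rw [abs_of_nonpos ht] at h
        rw [min_eq_left (by linarith), max_eq_left (by linarith)]
        nlinarith
    · have h' := not_le.1 h
      rw [abs_lt] at h'
      rw [min_eq_left h'.2.le, max_eq_right h'.1.le]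
      simp
  refine (Finset.sum_le_sum h1).trans ?_
  rw [← Finset.sum_filter, ← Finset.sum_mul]
  have h2 := sum_four_zpow_le (F.filter fun k => (2 : ℝ) ^ k ≤ |t|) (t * t) (mul_self_nonneg t)
    fun k hk => by
      have h3 := (Finset.mem_filter.1 hk).2
      have h4 : (4 : ℝ) ^ k = (2 : ℝ) ^ k * (2 : ℝ) ^ k := by
        rw [← mul_zpow]; norm_num
      rw [h4, ← abs_mul_abs_self t]
      exact mul_le_mul h3 h3 (by positivity) (abs_nonneg t)
  calc _ ≤ 4 / 3 * (t * t) * (t * t) := mul_le_mul_of_nonneg_right h2 (mul_self_nonneg t)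
    _ = _ := by ring

theorem re_tr_sum {ι : Type*} (F : Finset ι) (f : ι → H →L[ℂ] H) :
    (tr Ω (∑ i ∈ F, f i)).re = ∑ i ∈ F, (tr Ω (f i)).re := by
  classical
  induction F using Finset.induction_on with
  | empty => simp [tr]
  | insert a s ha ih => rw [Finset.sum_insert ha, Finset.sum_insert ha, tr_add, Complex.add_re, ih]

theorem real_smul_eq (r : ℝ) (x : H →L[ℂ] H) : r • x = (r : ℂ) • x := by
  ext v
  exact (Complex.coe_smul r (x v)).symm

theorem trunc_sum_le (hΩ : IsTraceVector M Ω) {h : H →L[ℂ] H} (hh : h ∈ M) (hsa : IsSelfAdjoint h)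
    (F : Finset ℤ) :
    ∑ k ∈ F, (4 : ℝ) ^ k * ‖trunc k h Ω‖ ^ 2 ≤ 4 / 3 * pnorm Ω 4 h ^ 4 := by
  set g : ℤ → ℝ → ℝ := fun k x => x - max (-(2 : ℝ) ^ k) (min x ((2 : ℝ) ^ k)) with hg
  have cg : ∀ k, Continuous (g k) := cont_trunc
  have h1 : ∀ k ∈ F, (4 : ℝ) ^ k * ‖trunc k h Ω‖ ^ 2 =
      (tr Ω (cfc (fun t : ℝ => (4 : ℝ) ^ k * (g k t * g k t)) h)).re := by
    intro k _
    have e1 : cfc (fun t : ℝ => (4 : ℝ) ^ k * (g k t * g k t)) h =
        (4 : ℝ) ^ k • cfc (fun t : ℝ => g k t * g k t) h :=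
      cfc_const_mul ((4 : ℝ) ^ k) (fun t : ℝ => g k t * g k t) h
        ((cg k).mul (cg k)).continuousOn
    have e2 : ((4 : ℝ) ^ k • cfc (fun t : ℝ => g k t * g k t) h : H →L[ℂ] H) =
        (((4 : ℝ) ^ k : ℝ) : ℂ) • cfc (fun t : ℝ => g k t * g k t) h := real_smul_eq _ _
    rw [e1, e2, tr_smul, Complex.re_ofReal_mul, norm_sq_vacuum, trunc, cfc_selfAdjoint,
      cfc_mul' (cg k) (cg k)]
  rw [Finset.sum_congr rfl h1, ← re_tr_sum,
    ← cfc_sum (fun k t => (4 : ℝ) ^ k * (g k t * g k t)) h F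
      fun k _ => (continuous_const.mul ((cg k).mul (cg k))).continuousOn]
  have h2 : 4 / 3 * pnorm Ω 4 h ^ 4 = (tr Ω (cfc (fun t : ℝ => 4 / 3 * (t * t * (t * t))) h)).re := by
    have cc : Continuous fun t : ℝ => t * t * (t * t) := by fun_prop
    have e1 : cfc (fun t : ℝ => 4 / 3 * (t * t * (t * t))) h =
        (4 / 3 : ℝ) • cfc (fun t : ℝ => t * t * (t * t)) h :=
      cfc_const_mul (4 / 3 : ℝ) (fun t : ℝ => t * t * (t * t)) h cc.continuousOn
    have e2 : ((4 / 3 : ℝ) • cfc (fun t : ℝ => t * t * (t * t)) h : H →L[ℂ] H) =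
        ((4 / 3 : ℝ) : ℂ) • cfc (fun t : ℝ => t * t * (t * t)) h := real_smul_eq _ _
    have e3 : cfc (fun t : ℝ => t * t * (t * t)) h = star (star h * h) * (star h * h) := by
      have f1 := cfc_mul' (a := h) (continuous_id'.mul continuous_id')
        (continuous_id'.mul continuous_id')
      have f2 := cfc_mul' (a := h) continuous_id' continuous_id'
      refine f1.symm.trans ?_
      have f3 : cfc (fun t : ℝ => t * t) h = h * h := by
        refine f2.symm.trans ?_
        simp only [← cfc_self hsa]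
      have f4 : star (star h * h) * (star h * h) = h * h * (h * h) := by
        rw [hsa.star_eq, star_mul, hsa.star_eq]
      rw [f4]
      exact congrArg₂ (· * ·) f3 f3
    rw [e1, e2, tr_smul, Complex.re_ofReal_mul, pnorm_four_pow hΩ hh, norm_sq_vacuum, e3]
  rw [h2]
  refine re_tr_cfc_le ?_ (by fun_prop) fun t _ => ?_
  · have : (∑ k ∈ F, fun t => (4 : ℝ) ^ k * (g k t * g k t)) =
        fun t => ∑ k ∈ F, (4 : ℝ) ^ k * (g k t * g k t) := by
      ext t; simp
    rw [this]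
    exact (continuous_finsetSum F
      fun k _ => continuous_const.mul ((cg k).mul (cg k))).continuousOn
  · rw [Finset.sum_apply]
    exact trunc_pointwise F t

/-! ### The completion -/

theorem pnorm_zero (hΩ : IsTraceVector M Ω) : pnorm Ω (4 / 3) (0 : H →L[ℂ] H) = 0 := by
  refine le_antisymm (pnorm_le_of_forall hΩ (zero_mem M) le_rfl fun y _ => ?_) (pnorm_nonneg' _)
  simp [tr]

theorem smul_mem' {x : H →L[ℂ] H} (c : ℂ) (hx : x ∈ M) : c • x ∈ M :=
  M.toStarSubalgebra.smul_mem hx c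

theorem pnorm_smul_le (hΩ : IsTraceVector M Ω) {x : H →L[ℂ] H} (hx : x ∈ M) (c : ℂ) :
    pnorm Ω (4 / 3) (c • x) ≤ ‖c‖ * pnorm Ω (4 / 3) x := by
  refine pnorm_le_of_forall hΩ (smul_mem' c hx)
    (mul_nonneg (norm_nonneg _) (pnorm_nonneg' x)) fun y hy => ?_
  rw [smul_mul_assoc, tr_smul, norm_mul, mul_assoc]
  exact mul_le_mul_of_nonneg_left (holder hΩ hx hy) (norm_nonneg _)

theorem pnorm_smul (hΩ : IsTraceVector M Ω) {x : H →L[ℂ] H} (hx : x ∈ M) (c : ℂ) :
    pnorm Ω (4 / 3) (c • x) = ‖c‖ * pnorm Ω (4 / 3) x := by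
  refine le_antisymm (pnorm_smul_le hΩ hx c) ?_
  rcases eq_or_ne c 0 with rfl | hc
  · simp [pnorm_zero hΩ]
  · have h1 := pnorm_smul_le hΩ (smul_mem' c hx) c⁻¹
    rw [inv_smul_smul₀ hc, norm_inv] at h1
    have h2 : 0 < ‖c‖ := norm_pos_iff.2 hc
    calc ‖c‖ * pnorm Ω (4 / 3) x ≤ ‖c‖ * (‖c‖⁻¹ * pnorm Ω (4 / 3) (c • x)) :=
          mul_le_mul_of_nonneg_left h1 h2.le
      _ = _ := by rw [← mul_assoc, mul_inv_cancel₀ h2.ne', one_mul]

/-- `M` as a bare vector space (with no norm). -/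
def E0 (M : VonNeumannAlgebra H) : Type _ := ↥M.toStarSubalgebra

noncomputable instance (M : VonNeumannAlgebra H) : AddCommGroup (E0 M) :=
  inferInstanceAs (AddCommGroup ↥M.toStarSubalgebra)

noncomputable instance (M : VonNeumannAlgebra H) : Module ℂ (E0 M) :=
  inferInstanceAs (Module ℂ ↥M.toStarSubalgebra)

/-- The underlying operator. -/
def E0.val (x : E0 M) : H →L[ℂ] H := Subtype.val (p := fun y => y ∈ M.toStarSubalgebra) x

theorem E0.mem (x : E0 M) : x.val ∈ M :=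
  Subtype.property (p := fun y => y ∈ M.toStarSubalgebra) x

/-- The element given by an operator in `M`. -/
def E0.mk (x : H →L[ℂ] H) (hx : x ∈ M) : E0 M :=
  (⟨x, hx⟩ : ↥M.toStarSubalgebra)

theorem exists_isNCLp {H : Type} [NormedAddCommGroup H] [InnerProductSpace ℂ H] [CompleteSpace H]
    {M : VonNeumannAlgebra H} {Ω : H} (hΩ : IsTraceVector M Ω) :
    ∃ (E : Type) (_ : NormedAddCommGroup E) (_ : NormedSpace ℂ E) (_ : CompleteSpace E)
      (ι : (H →L[ℂ] H) → E), IsNCLp M Ω (4 / 3) ι := by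
  classical
  letI : Norm (E0 M) := ⟨fun x => pnorm Ω (4 / 3) x.val⟩
  have core : NormedSpace.Core ℂ (E0 M) :=
    { norm_nonneg := fun x => pnorm_nonneg' x.val
      norm_smul := fun c x => pnorm_smul hΩ x.mem c
      norm_triangle := fun x y => pnorm_add_le hΩ x.mem y.mem
      norm_eq_zero_iff := fun x => by
        constructor
        · intro h
          exact Subtype.ext (eq_zero_of_pnorm_eq_zero hΩ x.mem h)
        · rintro rfl
          exact pnorm_zero hΩ }
  letI i1 : NormedAddCommGroup (E0 M) := NormedAddCommGroup.ofCore core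
  letI i2 : NormedSpace ℂ (E0 M) := NormedSpace.ofCore core
  refine ⟨UniformSpace.Completion (E0 M), inferInstance, inferInstance, inferInstance,
    fun x => if hx : x ∈ M then ((E0.mk x hx : E0 M) : UniformSpace.Completion (E0 M)) else 0,
    ?_⟩
  constructor
  · intro x hx y hy
    rw [dif_pos (add_mem hx hy), dif_pos hx, dif_pos hy, ← UniformSpace.Completion.coe_add]
    rfl
  · intro c x hx
    rw [dif_pos (smul_mem' c hx), dif_pos hx, ← UniformSpace.Completion.coe_smul]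
    rfl
  · intro x hx
    rw [dif_pos hx, UniformSpace.Completion.norm_coe]
    rfl
  · intro e ε hε
    obtain ⟨x, hx⟩ := (UniformSpace.Completion.denseRange_coe (α := E0 M)).exists_dist_lt e hε
    refine ⟨x.val, x.mem, ?_⟩
    rw [dif_pos x.mem, ← dist_eq_norm]
    exact hx

end Pool.Agent.H21.NC
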