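import Pool.Agent.H91.Hall
import Pool.Agent.H91.Fox

/-!
# Residual finiteness of finitely generated groups with locally free derived group
-/

open Submodule
open scoped commutatorElement

namespace Pool.Agent.H91

noncomputable section

section IW

variable {N : Type*} [Group N] {F : Type*} [Field F]

variable (F) in
/-- The ideal of the group algebra generated by the `w - 1`, `w ∈ W`. -/
def IW (W : Subgroup N) : Submodule F (MonoidAlgebra F N) := Del F W * AlgS F ⊤

theorem IW_mul (W : Subgroup N) {a : MonoidAlgebra F N} (ha : a ∈ IW F W) (b : MonoidAlgebra F N) :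
    a * b ∈ IW F W := by
  have h1 : IW F W * AlgS F ⊤ ≤ IW F W := by
    rw [IW, mul_assoc]
    exact mul_le_mul_right (algS_mul_algS ⊤) _
  exact h1 (mul_mem_mul ha (by rw [algS_top]; trivial))

theorem mul_IW (W : Subgroup N) [W.Normal] (b : MonoidAlgebra F N) {a : MonoidAlgebra F N}
    (ha : a ∈ IW F W) : b * a ∈ IW F W := by
  have h1 : AlgS F (⊤ : Subgroup N) * Del F W ≤ IW F W := by
    rw [AlgS, Del, span_mul_span]
    refine span_le.2 ?_
    rintro _ ⟨_, ⟨n, -, rfl⟩, _, ⟨w, hw, rfl⟩, rfl⟩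
    have : MonoidAlgebra.of F N n * (MonoidAlgebra.of F N w - 1) =
        (MonoidAlgebra.of F N (n * w * n⁻¹) - 1) * MonoidAlgebra.of F N n := by
      rw [sub_mul, ← map_mul, inv_mul_cancel_right, mul_sub, ← map_mul, mul_one, one_mul]
    dsimp only
    rw [this]
    exact mul_mem_mul (sub_one_mem_del (‹W.Normal›.conj_mem w hw n))
      (of_mem_algS (Subgroup.mem_top _))
  have h2 : AlgS F (⊤ : Subgroup N) * IW F W ≤ IW F W := by
    calc AlgS F (⊤ : Subgroup N) * IW F W = AlgS F (⊤ : Subgroup N) * Del F W * AlgS F ⊤ := by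
          rw [IW, mul_assoc]
      _ ≤ IW F W * AlgS F ⊤ := mul_le_mul_left h1 _
      _ ≤ IW F W := by
          rw [IW, mul_assoc]
          exact mul_le_mul_right (algS_mul_algS ⊤) _
  exact h2 (mul_mem_mul (by rw [algS_top]; trivial) ha)

theorem sub_one_mem_IW {W : Subgroup N} {w : N} (hw : w ∈ W) :
    MonoidAlgebra.of F N w - 1 ∈ IW F W := by
  have := mul_mem_mul (sub_one_mem_del (F := F) hw) (one_mem_algS (F := F) (⊤ : Subgroup N))
  rwa [mul_one] at this

theorem IW_mono {V W : Subgroup N} (h : V ≤ W) : IW F V ≤ IW F W :=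
  mul_le_mul_left (del_mono h) _

theorem IW_le_del (W : Subgroup N) : IW F W ≤ Del F (⊤ : Subgroup N) :=
  (mul_le_mul_left (del_mono le_top) _).trans (del_mul_algS ⊤)

theorem mul_sub_one_mem (W : Subgroup N) {w n : N} (hw : w ∈ W) :
    (MonoidAlgebra.of F N w - 1) * (MonoidAlgebra.of F N n - 1) ∈ IW F W * Del F ⊤ :=
  mul_mem_mul (sub_one_mem_IW hw) (sub_one_mem_del (Subgroup.mem_top _))

theorem IW_mul_del_mul (W : Subgroup N) {a : MonoidAlgebra F N} (ha : a ∈ IW F W * Del F ⊤)
    (b : MonoidAlgebra F N) : a * b ∈ IW F W * Del F ⊤ := by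
  have h1 : IW F W * Del F ⊤ * AlgS F ⊤ ≤ IW F W * Del F ⊤ := by
    rw [mul_assoc]
    exact mul_le_mul_right (del_mul_algS ⊤) _
  exact h1 (mul_mem_mul ha (by rw [algS_top]; trivial))

/-- Modulo `IW W * Del ⊤`, every element of `IW W` is of the form `w - 1`. -/
theorem exists_sub_mem (p : ℕ) [Fact p.Prime] (W : Subgroup N)
    (i : MonoidAlgebra (ZMod p) N) (hi : i ∈ IW (ZMod p) W) :
    ∃ w ∈ W, i - (MonoidAlgebra.of (ZMod p) N w - 1) ∈ IW (ZMod p) W * Del (ZMod p) ⊤ := by
  let S : AddSubgroup (MonoidAlgebra (ZMod p) N) :=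
    { carrier := {i | ∃ w ∈ W, i - (MonoidAlgebra.of (ZMod p) N w - 1) ∈
        IW (ZMod p) W * Del (ZMod p) ⊤}
      zero_mem' := ⟨1, W.one_mem, by rw [map_one, sub_self, sub_zero]; exact zero_mem _⟩
      add_mem' := by
        rintro a b ⟨v, hv, hav⟩ ⟨w, hw, hbw⟩
        refine ⟨v * w, W.mul_mem hv hw, ?_⟩
        have h1 : a + b - (MonoidAlgebra.of (ZMod p) N (v * w) - 1) =
            (a - (MonoidAlgebra.of (ZMod p) N v - 1)) +
            (b - (MonoidAlgebra.of (ZMod p) N w - 1)) -
            (MonoidAlgebra.of (ZMod p) N v - 1) * (MonoidAlgebra.of (ZMod p) N w - 1) := by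
          rw [map_mul]; noncomm_ring
        rw [h1]
        exact sub_mem (add_mem hav hbw) (mul_sub_one_mem W hv)
      neg_mem' := by
        rintro a ⟨v, hv, hav⟩
        refine ⟨v⁻¹, W.inv_mem hv, ?_⟩
        have h2 : MonoidAlgebra.of (ZMod p) N v * MonoidAlgebra.of (ZMod p) N v⁻¹ = 1 := by
          rw [← map_mul, mul_inv_cancel, map_one]
        have h1 : -a - (MonoidAlgebra.of (ZMod p) N v⁻¹ - 1) =
            -(a - (MonoidAlgebra.of (ZMod p) N v - 1)) +
            (MonoidAlgebra.of (ZMod p) N v - 1) * (MonoidAlgebra.of (ZMod p) N v⁻¹ - 1) := by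
          rw [sub_mul, mul_sub, h2]
          noncomm_ring
        rw [h1]
        exact add_mem (neg_mem hav) (mul_sub_one_mem W hv) }
  have h1 : IW (ZMod p) W ≤ AddSubgroup.toZModSubmodule p S := by
    rw [IW, AlgS, Del, span_mul_span]
    refine span_le.2 ?_
    rintro _ ⟨_, ⟨w, hw, rfl⟩, _, ⟨n, -, rfl⟩, rfl⟩
    refine ⟨w, hw, ?_⟩
    have : (MonoidAlgebra.of (ZMod p) N w - 1) * MonoidAlgebra.of (ZMod p) N n -
        (MonoidAlgebra.of (ZMod p) N w - 1) =
        (MonoidAlgebra.of (ZMod p) N w - 1) * (MonoidAlgebra.of (ZMod p) N n - 1) := by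
      noncomm_ring
    dsimp only
    rw [this]
    exact mul_sub_one_mem W hw
  exact h1 hi

end IW

section groups

variable {G : Type*} [Group G]

/-- Commutator sets of quotients in which the commutator subgroup has finite image. -/
theorem finite_commutatorSet {K : Type*} [Group K] (f : G →* K) (hf : Function.Surjective f)
    (N W : Subgroup G) (hN : commutator G ≤ N) (hW : W ≤ f.ker) (hWN : W.relIndex N ≠ 0) :
    Finite (commutatorSet K) := by
  have h1 : (f.comp N.subtype).ker.FiniteIndex := by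
    have h2 : W.subgroupOf N ≤ (f.comp N.subtype).ker := by
      intro x hx
      exact hW hx
    have h3 : (W.subgroupOf N).FiniteIndex := ⟨hWN⟩
    exact Subgroup.finiteIndex_of_le h2
  have h2 : Finite (f.comp N.subtype).range :=
    Finite.of_equiv _ (QuotientGroup.quotientKerEquivRange (f.comp N.subtype)).toEquiv
  have h3 : commutatorSet K ⊆ ((f.comp N.subtype).range : Set K) := by
    rintro _ ⟨x, y, rfl⟩
    obtain ⟨a, rfl⟩ := hf x
    obtain ⟨b, rfl⟩ := hf y
    refine ⟨⟨⁅a, b⁆, hN (Subgroup.commutator_mem_commutator (Subgroup.mem_top _)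
      (Subgroup.mem_top _))⟩, ?_⟩
    simp [map_commutatorElement]
  exact Set.Finite.subset (Set.toFinite ((f.comp N.subtype).range : Set K)) h3

/-- The form of P. Hall's theorem used below. -/
theorem hall_step (p : ℕ) [Fact p.Prime] [Group.FG G] (N W Y : Subgroup G) [W.Normal] [Y.Normal]
    (hN : commutator G ≤ N) (hWN : W ≤ N) (hWf : W.relIndex N ≠ 0) (hYW : Y ≤ W)
    (hcomm : ∀ a ∈ W, ∀ b ∈ W, ⁅a, b⁆ ∈ Y) (hpow : ∀ a ∈ W, a ^ p ∈ Y)
    (w : G) (hw : w ∈ W) (hwY : w ∉ Y) :
    ∃ W' : Subgroup G, W'.Normal ∧ W' ≤ N ∧ W'.relIndex N ≠ 0 ∧ Y ≤ W' ∧ W' ≤ W ∧ w ∉ W' := by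
  let π := QuotientGroup.mk' Y
  have hπ : Function.Surjective π := QuotientGroup.mk'_surjective Y
  have hker : π.ker = Y := QuotientGroup.ker_mk' Y
  let M : Subgroup (G ⧸ Y) := W.map π
  have hM : M.Normal := Subgroup.Normal.map ‹W.Normal› π hπ
  have hMcomap : M.comap π = W := by
    rw [Subgroup.comap_map_eq, hker]
    exact sup_eq_left.2 hYW
  have h1 : ∀ a ∈ M, ∀ b ∈ M, a * b = b * a := by
    rintro _ ⟨a, ha, rfl⟩ _ ⟨b, hb, rfl⟩
    have h2 : π ⁅a, b⁆ = 1 := by
      rw [← MonoidHom.mem_ker, hker]; exact hcomm a ha b hb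
    rw [map_commutatorElement, commutatorElement_eq_one_iff_mul_comm] at h2
    exact h2
  have h2 : ∀ a ∈ M, a ^ p = 1 := by
    rintro _ ⟨a, ha, rfl⟩
    rw [← map_pow, ← MonoidHom.mem_ker, hker]
    exact hpow a ha
  have h3 : Finite (commutatorSet ((G ⧸ Y) ⧸ M)) := by
    refine finite_commutatorSet ((QuotientGroup.mk' M).comp π)
      ((QuotientGroup.mk'_surjective M).comp hπ) N W hN ?_ hWf
    intro x hx
    rw [MonoidHom.mem_ker, MonoidHom.comp_apply, ← MonoidHom.mem_ker, QuotientGroup.ker_mk']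
    exact Subgroup.mem_map_of_mem π hx
  obtain ⟨U, hU, hUM, hUf, hwU⟩ := exists_normal_of_abelian p M h1 h2 (π w)
    (Subgroup.mem_map_of_mem π hw) (by
      intro h
      apply hwY
      rw [← hker]; exact h)
  have hU' : (U.comap π) ≤ W := by
    rw [← hMcomap]
    exact Subgroup.comap_mono hUM
  refine ⟨U.comap π, Subgroup.Normal.comap hU π, hU'.trans hWN, ?_, ?_, hU', hwU⟩
  · rw [← Subgroup.relIndex_mul_relIndex (U.comap π) W N hU' hWN, Subgroup.relIndex_comap]
    exact mul_ne_zero hUf hWf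
  · intro y hy
    rw [Subgroup.mem_comap]
    have : π y = 1 := by rw [← MonoidHom.mem_ker, hker]; exact hy
    rw [this]; exact U.one_mem

/-- A normal subgroup of finite relative index, packaged. -/
structure FinSub (N : Subgroup G) where
  /-- the underlying subgroup -/
  W : Subgroup G
  normal : W.Normal
  le : W ≤ N
  fin : W.relIndex N ≠ 0

/-- The algebra automorphism induced by conjugation. -/
def conjAlg (F : Type*) [Field F] (N : Subgroup G) [N.Normal] (g : G) :
    MonoidAlgebra F N →ₐ[F] MonoidAlgebra F N :=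
  MonoidAlgebra.mapDomainAlgHom F F (MulAut.conjNormal g : N ≃* N).toMonoidHom

theorem conjAlg_of (F : Type*) [Field F] (N : Subgroup G) [N.Normal] (g : G) (n : N) :
    conjAlg F N g (MonoidAlgebra.of F N n) = MonoidAlgebra.of F N (MulAut.conjNormal g n) := by
  simp [conjAlg]

theorem conjAlg_sub_one (F : Type*) [Field F] (N : Subgroup G) [N.Normal] (g : G) (n : N) :
    conjAlg F N g (MonoidAlgebra.of F N n - 1) =
      MonoidAlgebra.of F N (MulAut.conjNormal g n) - 1 := by
  rw [map_sub, conjAlg_of, map_one]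

theorem conjAlg_del (F : Type*) [Field F] (N : Subgroup G) [N.Normal] (g : G) (W : Subgroup G)
    (hW : W.Normal) :
    (Del F (W.subgroupOf N)).map (conjAlg F N g).toLinearMap ≤ Del F (W.subgroupOf N) := by
  rw [Submodule.map_le_iff_le_comap]
  refine span_le.2 ?_
  rintro _ ⟨w, hw, rfl⟩
  change conjAlg F N g (MonoidAlgebra.of F N w - 1) ∈ Del F (W.subgroupOf N)
  rw [conjAlg_sub_one]
  refine sub_one_mem_del ?_
  rw [Subgroup.mem_subgroupOf, MulAut.conjNormal_apply]
  exact hW.conj_mem _ hw g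

theorem conjAlg_del_top (F : Type*) [Field F] (N : Subgroup G) [N.Normal] (g : G) :
    (Del F (⊤ : Subgroup N)).map (conjAlg F N g).toLinearMap ≤ Del F (⊤ : Subgroup N) := by
  rw [Submodule.map_le_iff_le_comap]
  refine span_le.2 ?_
  rintro _ ⟨w, hw, rfl⟩
  change conjAlg F N g (MonoidAlgebra.of F N w - 1) ∈ Del F (⊤ : Subgroup N)
  rw [conjAlg_sub_one]
  exact sub_one_mem_del (Subgroup.mem_top _)

theorem conjAlg_J (F : Type*) [Field F] (N : Subgroup G) [N.Normal] (g : G) (k : ℕ) :
    (J F (⊤ : Subgroup N) k).map (conjAlg F N g).toLinearMap ≤ J F (⊤ : Subgroup N) k := by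
  induction k with
  | zero =>
    change _ ≤ AlgS F ⊤
    rw [algS_top]; exact le_top
  | succ k ih =>
    change Submodule.map (conjAlg F N g).toLinearMap
      (J F (⊤ : Subgroup N) k * Del F (⊤ : Subgroup N)) ≤
      J F (⊤ : Subgroup N) k * Del F (⊤ : Subgroup N)
    rw [Submodule.map_mul]
    exact mul_le_mul' ih (conjAlg_del_top F N g)

theorem conjAlg_IW (F : Type*) [Field F] (N : Subgroup G) [N.Normal] (g : G) (W : Subgroup G)
    (hW : W.Normal) :
    (IW F (W.subgroupOf N)).map (conjAlg F N g).toLinearMap ≤ IW F (W.subgroupOf N) := by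
  rw [IW, Submodule.map_mul]
  refine mul_le_mul' (conjAlg_del F N g W hW) ?_
  rw [algS_top]; exact le_top

/-- **Main step.** Let `G` be finitely generated and `N` a normal, locally free subgroup
containing the commutator subgroup.  Then for every `k` the elements of `𝔽_p[N]` outside the
`k`-th power of the augmentation ideal are separated from it by the ideals of normal subgroups
`W ≤ N` of `G` of finite index in `N`. -/
theorem exists_finSub (p : ℕ) [Fact p.Prime] [Group.FG G] (N : Subgroup G) [N.Normal]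
    (hN : commutator G ≤ N) (hfree : ∀ B : Subgroup N, B.FG → IsFreeGroup B) (k : ℕ) :
    ∀ a : MonoidAlgebra (ZMod p) N, a ∉ J (ZMod p) (⊤ : Subgroup N) k →
      ∃ W : FinSub N, a ∉ IW (ZMod p) (W.W.subgroupOf N) ⊔ J (ZMod p) (⊤ : Subgroup N) k := by
  induction k with
  | zero =>
    intro a ha
    exfalso
    apply ha
    change a ∈ AlgS _ _
    rw [algS_top]; trivial
  | succ k ih =>
    intro a ha
    by_cases haD : a ∈ Del (ZMod p) (⊤ : Subgroup N)
    · obtain ⟨W, hW⟩ := exists_notMem_mul_del hfree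
        (fun W : FinSub N => IW (ZMod p) (W.W.subgroupOf N))
        (fun W a ha b => IW_mul _ ha b) k ih a haD ha
      by_cases haW : a ∈ IW (ZMod p) (W.W.subgroupOf N) ⊔ J (ZMod p) (⊤ : Subgroup N) (k + 1)
      · obtain ⟨i, hi, f, hf, hif⟩ := mem_sup.1 haW
        obtain ⟨w₀, hw₀, hiw₀⟩ := exists_sub_mem p (W.W.subgroupOf N) i hi
        -- the subgroup `Y`
        set T := IW (ZMod p) (W.W.subgroupOf N) * Del (ZMod p) ⊤ ⊔
          J (ZMod p) (⊤ : Subgroup N) (k + 1) with hT
        have hTmul : ∀ x ∈ T, ∀ b, x * b ∈ T := by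
          intro x hx b
          obtain ⟨y, hy, z, hz, rfl⟩ := mem_sup.1 hx
          rw [add_mul]
          exact add_mem (mem_sup_left (IW_mul_del_mul _ hy b)) (mem_sup_right (mul_mem_J hz b))
        have hTconj : ∀ g : G, ∀ x ∈ T, conjAlg (ZMod p) N g x ∈ T := by
          intro g x hx
          have h1 : T.map (conjAlg (ZMod p) N g).toLinearMap ≤ T := by
            rw [hT, Submodule.map_sup, Submodule.map_mul]
            exact sup_le_sup (mul_le_mul' (conjAlg_IW _ N g W.W W.normal)
              (conjAlg_del_top _ N g)) (conjAlg_J _ N g (k + 1))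
          exact h1 (mem_map_of_mem hx)
        let Y : Subgroup G :=
          { carrier := {g | ∃ h : g ∈ N, g ∈ W.W ∧
              MonoidAlgebra.of (ZMod p) N ⟨g, h⟩ - 1 ∈ T}
            mul_mem' := by
              rintro a b ⟨ha, haW, haT⟩ ⟨hb, hbW, hbT⟩
              refine ⟨N.mul_mem ha hb, W.W.mul_mem haW hbW, ?_⟩
              have h1 : MonoidAlgebra.of (ZMod p) N ⟨a * b, N.mul_mem ha hb⟩ - 1 =
                  (MonoidAlgebra.of (ZMod p) N ⟨a, ha⟩ - 1) * MonoidAlgebra.of (ZMod p) N ⟨b, hb⟩ +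
                  (MonoidAlgebra.of (ZMod p) N ⟨b, hb⟩ - 1) := by
                have h2 : (⟨a * b, N.mul_mem ha hb⟩ : N) = ⟨a, ha⟩ * ⟨b, hb⟩ := rfl
                rw [h2, map_mul]; noncomm_ring
              rw [h1]
              exact add_mem (hTmul _ haT _) hbT
            one_mem' := by
              refine ⟨N.one_mem, W.W.one_mem, ?_⟩
              have h2 : (⟨1, N.one_mem⟩ : N) = 1 := rfl
              rw [h2, map_one, sub_self]
              exact zero_mem _
            inv_mem' := by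
              rintro a ⟨ha, haW, haT⟩
              refine ⟨N.inv_mem ha, W.W.inv_mem haW, ?_⟩
              have h2 : (⟨a⁻¹, N.inv_mem ha⟩ : N) = (⟨a, ha⟩ : N)⁻¹ := rfl
              have h3 : MonoidAlgebra.of (ZMod p) N (⟨a, ha⟩ : N)⁻¹ - 1 =
                  -((MonoidAlgebra.of (ZMod p) N ⟨a, ha⟩ - 1) *
                    MonoidAlgebra.of (ZMod p) N (⟨a, ha⟩ : N)⁻¹) := by
                rw [sub_mul, ← map_mul, mul_inv_cancel, map_one]; noncomm_ring
              rw [h2, h3]
              exact neg_mem (hTmul _ haT _) }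
        have hYn : Y.Normal := by
          refine ⟨?_⟩
          rintro n ⟨hn, hnW, hnT⟩ g
          refine ⟨‹N.Normal›.conj_mem _ hn g, W.normal.conj_mem _ hnW g, ?_⟩
          have h1 := hTconj g _ hnT
          rw [conjAlg_sub_one] at h1
          exact h1
        have hYW : Y ≤ W.W := fun y hy => hy.2.1
        have hWn : W.W.Normal := W.normal
        -- products of two elements `v - 1`, `w - 1`
        have hprod : ∀ v w : N, (v : G) ∈ W.W →
            (MonoidAlgebra.of (ZMod p) N v - 1) * (MonoidAlgebra.of (ZMod p) N w - 1) ∈ T :=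
          fun v w hv => mem_sup_left (mul_sub_one_mem _ hv)
        have hcomm : ∀ a ∈ W.W, ∀ b ∈ W.W, ⁅a, b⁆ ∈ Y := by
          intro a ha b hb
          have haN := W.le ha
          have hbN := W.le hb
          refine ⟨N.mul_mem (N.mul_mem (N.mul_mem haN hbN) (N.inv_mem haN)) (N.inv_mem hbN),
            W.W.mul_mem (W.W.mul_mem (W.W.mul_mem ha hb) (W.W.inv_mem ha)) (W.W.inv_mem hb), ?_⟩
          have h1 : (⟨⁅a, b⁆, N.mul_mem (N.mul_mem (N.mul_mem haN hbN) (N.inv_mem haN))
            (N.inv_mem hbN)⟩ : N) = ⟨a, haN⟩ * ⟨b, hbN⟩ * (⟨b, hbN⟩ * ⟨a, haN⟩)⁻¹ := by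
            apply Subtype.ext
            simp [commutatorElement_def, mul_assoc]
          rw [h1]
          set x : N := ⟨a, haN⟩
          set y : N := ⟨b, hbN⟩
          have h2 : MonoidAlgebra.of (ZMod p) N (x * y * (y * x)⁻¹) - 1 =
              ((MonoidAlgebra.of (ZMod p) N x - 1) * (MonoidAlgebra.of (ZMod p) N y - 1) -
               (MonoidAlgebra.of (ZMod p) N y - 1) * (MonoidAlgebra.of (ZMod p) N x - 1)) *
              MonoidAlgebra.of (ZMod p) N (y * x)⁻¹ := by
            have h3 : (MonoidAlgebra.of (ZMod p) N x - 1) * (MonoidAlgebra.of (ZMod p) N y - 1) -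
               (MonoidAlgebra.of (ZMod p) N y - 1) * (MonoidAlgebra.of (ZMod p) N x - 1) =
               MonoidAlgebra.of (ZMod p) N (x * y) - MonoidAlgebra.of (ZMod p) N (y * x) := by
              rw [map_mul, map_mul]; noncomm_ring
            rw [h3, sub_mul, ← map_mul, ← map_mul, mul_inv_cancel, map_one]
          rw [h2]
          exact hTmul _ (sub_mem (hprod x y ha) (hprod y x hb)) _
        have hpow : ∀ a ∈ W.W, a ^ p ∈ Y := by
          intro a ha
          have haN := W.le ha
          refine ⟨N.pow_mem haN p, W.W.pow_mem ha p, ?_⟩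
          have h1 : (⟨a ^ p, N.pow_mem haN p⟩ : N) = ⟨a, haN⟩ ^ p := rfl
          have hchar : CharP (MonoidAlgebra (ZMod p) N) p :=
            charP_of_injective_algebraMap (algebraMap (ZMod p) _).injective p
          have h2 : MonoidAlgebra.of (ZMod p) N (⟨a, haN⟩ ^ p) - 1 =
              (MonoidAlgebra.of (ZMod p) N ⟨a, haN⟩ - 1) ^ p := by
            rw [sub_pow_char_of_commute p (Commute.one_right _), one_pow, map_pow]
          rw [h1, h2]
          obtain ⟨q, hq⟩ : ∃ q, p = q + 2 := ⟨p - 2, by have := (Fact.out : p.Prime).two_le; omega⟩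
          have h3 : (MonoidAlgebra.of (ZMod p) N ⟨a, haN⟩ - 1) ^ p =
              ((MonoidAlgebra.of (ZMod p) N ⟨a, haN⟩ - 1) *
                (MonoidAlgebra.of (ZMod p) N ⟨a, haN⟩ - 1)) *
              (MonoidAlgebra.of (ZMod p) N ⟨a, haN⟩ - 1) ^ q := by
            generalize MonoidAlgebra.of (ZMod p) N ⟨a, haN⟩ - 1 = z
            calc z ^ p = z ^ (q + 2) := congrArg (z ^ ·) hq
              _ = z * z * z ^ q := by rw [← pow_two, ← pow_add, add_comm 2 q]
          rw [h3]
          exact hTmul _ (hprod _ _ ha) _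
        have hw₀T : MonoidAlgebra.of (ZMod p) N w₀ - 1 ∉ T := by
          intro h
          apply hW
          rw [← hif]
          refine add_mem ?_ (mem_sup_right hf)
          have h1 := add_mem (mem_sup_left hiw₀ :
            i - (MonoidAlgebra.of (ZMod p) N w₀ - 1) ∈ T) h
          rwa [sub_add_cancel] at h1
        have hw₀Y : (w₀ : G) ∉ Y := fun h => hw₀T h.2.2
        obtain ⟨W', hW'n, hW'N, hW'f, hYW', hW'W, hwW'⟩ := hall_step p N W.W Y hN W.le W.fin hYW
          hcomm hpow (w₀ : G) hw₀ hw₀Y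
        refine ⟨⟨W', hW'n, hW'N, hW'f⟩, ?_⟩
        intro hcon
        obtain ⟨i', hi', f', hf', hif'⟩ := mem_sup.1 hcon
        obtain ⟨w, hw, hiw⟩ := exists_sub_mem p _ i' hi'
        apply hwW'
        have h1 : IW (ZMod p) (W'.subgroupOf N) * Del (ZMod p) ⊤ ≤ T := by
          refine le_trans (mul_le_mul_left (IW_mono ?_) _) le_sup_left
          exact Subgroup.comap_mono hW'W
        have h2 : (MonoidAlgebra.of (ZMod p) N w₀ - 1) - (MonoidAlgebra.of (ZMod p) N w - 1) ∈ T := by
          have h3 : (MonoidAlgebra.of (ZMod p) N w₀ - 1) - (MonoidAlgebra.of (ZMod p) N w - 1) =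
              (i' - (MonoidAlgebra.of (ZMod p) N w - 1)) -
              (i - (MonoidAlgebra.of (ZMod p) N w₀ - 1)) + (f' - f) +
              ((i + f) - (i' + f')) := by abel
          rw [h3, hif, hif', sub_self, add_zero]
          exact add_mem (sub_mem (h1 hiw) (mem_sup_left hiw₀))
            (mem_sup_right (sub_mem hf' hf))
        have h3 : MonoidAlgebra.of (ZMod p) N (w₀ * w⁻¹) - 1 ∈ T := by
          have h4 : MonoidAlgebra.of (ZMod p) N (w₀ * w⁻¹) - 1 =
              ((MonoidAlgebra.of (ZMod p) N w₀ - 1) - (MonoidAlgebra.of (ZMod p) N w - 1)) *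
              MonoidAlgebra.of (ZMod p) N w⁻¹ := by
            have h5 : (MonoidAlgebra.of (ZMod p) N w₀ - 1) - (MonoidAlgebra.of (ZMod p) N w - 1) =
              MonoidAlgebra.of (ZMod p) N w₀ - MonoidAlgebra.of (ZMod p) N w := by abel
            rw [h5, sub_mul, ← map_mul, ← map_mul, mul_inv_cancel, map_one]
          rw [h4]
          exact hTmul _ h2 _
        have h4 : ((w₀ * w⁻¹ : N) : G) ∈ Y := by
          refine ⟨(w₀ * w⁻¹).2, ?_, h3⟩
          exact W.W.mul_mem hw₀ (W.W.inv_mem (hW'W hw))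
        have h5 := W'.mul_mem (hYW' h4) hw
        simpa using h5
      · exact ⟨W, haW⟩
    · refine ⟨⟨N, inferInstance, le_rfl, by simp⟩, fun h => haD ?_⟩
      have h1 : IW (ZMod p) (N.subgroupOf N) ⊔ J (ZMod p) (⊤ : Subgroup N) (k + 1) ≤
          Del (ZMod p) (⊤ : Subgroup N) := by
        refine sup_le (IW_le_del _) ?_
        rw [← J_one]
        exact J_antitone _ (by omega)
      exact h1 h

end groups

end

end Pool.Agent.H91
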