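import Pool.Agent.H91.ResFin

/-!
# Assembly: residual finiteness of finitely generated groups with locally free derived subgroup

* `exists_J_eq_bot`: the augmentation ideal of `𝔽_p[P]` is nilpotent for a finite `p`-group `P`.
* `residuallyFinite_of_finite_commutatorSet`: finitely generated groups with finitely many
  commutators are residually finite.
* `residuallyFinite_of_locallyFree`: the theorem for `G` and its commutator subgroup.
-/

open Submodule
open scoped commutatorElement IsMulCommutative

namespace Pool.Agent.H91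

noncomputable section

section nilpotent

variable {N N' : Type*} [Group N] [Group N']

theorem map_del_top (F : Type*) [Field F] (f : N →* N') :
    (Del F (⊤ : Subgroup N)).map (MonoidAlgebra.mapDomainAlgHom F F f).toLinearMap ≤
      Del F (⊤ : Subgroup N') := by
  rw [Submodule.map_le_iff_le_comap]
  refine span_le.2 ?_
  rintro _ ⟨w, hw, rfl⟩
  change MonoidAlgebra.mapDomainAlgHom F F f (MonoidAlgebra.of F N w - 1) ∈
    Del F (⊤ : Subgroup N')
  have h : MonoidAlgebra.mapDomainAlgHom F F f (MonoidAlgebra.of F N w - 1) =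
      MonoidAlgebra.of F N' (f w) - 1 := by
    rw [map_sub, map_one]
    simp
  rw [h]
  exact sub_one_mem_del (Subgroup.mem_top _)

theorem map_J (F : Type*) [Field F] (f : N →* N') (k : ℕ) :
    (J F (⊤ : Subgroup N) k).map (MonoidAlgebra.mapDomainAlgHom F F f).toLinearMap ≤
      J F (⊤ : Subgroup N') k := by
  induction k with
  | zero =>
    change _ ≤ AlgS F ⊤
    rw [algS_top]; exact le_top
  | succ k ih =>
    change Submodule.map (MonoidAlgebra.mapDomainAlgHom F F f).toLinearMap
      (J F (⊤ : Subgroup N) k * Del F (⊤ : Subgroup N)) ≤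
      J F (⊤ : Subgroup N') k * Del F (⊤ : Subgroup N')
    rw [Submodule.map_mul]
    exact mul_le_mul' ih (map_del_top F f)

/-- The augmentation ideal of the group algebra over `𝔽_p` of a finite `p`-group is nilpotent. -/
theorem exists_J_eq_bot (p : ℕ) [Fact p.Prime] (P : Type*) [Group P] [Finite P]
    (hP : IsPGroup p P) : ∃ k, J (ZMod p) (⊤ : Subgroup P) k = ⊥ := by
  have hfinA : Module.Finite (ZMod p) (MonoidAlgebra (ZMod p) P) := by
    have h : Finite (MonoidAlgebra (ZMod p) P) := by
      have : Finite (P →₀ ZMod p) := Module.finite_of_finite (ZMod p)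
      exact Finite.of_injective _ MonoidAlgebra.coeff_injective
    exact Module.Finite.of_finite
  obtain ⟨k, hk⟩ := IsArtinian.monotone_stabilizes (R := ZMod p)
    (M := MonoidAlgebra (ZMod p) P)
    ⟨fun k => OrderDual.toDual (J (ZMod p) (⊤ : Subgroup P) k),
      fun a b hab => OrderDual.toDual_le_toDual.2 (J_antitone _ hab)⟩
  have hk1 : J (ZMod p) (⊤ : Subgroup P) k = J (ZMod p) (⊤ : Subgroup P) (k + 1) :=
    hk (k + 1) (Nat.le_succ k)
  refine ⟨k, ?_⟩
  by_contra hne
  set V := J (ZMod p) (⊤ : Subgroup P) k with hV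
  have hVn : Nontrivial V := Submodule.nontrivial_iff_ne_bot.2 hne
  -- right multiplication
  let R : P → (V →ₗ[ZMod p] V) := fun g =>
    (LinearMap.mulRight (ZMod p) (MonoidAlgebra.of (ZMod p) P g)).restrict
      (fun x hx => mul_mem_J hx _)
  have hR : ∀ g (v : V), ((R g v : V) : MonoidAlgebra (ZMod p) P) =
      v * MonoidAlgebra.of (ZMod p) P g := fun g v => rfl
  let _ : MulAction P (Module.Dual (ZMod p) V) :=
    { smul := fun g l => l.comp (R g)
      one_smul := by
        intro l
        refine LinearMap.ext fun v => ?_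
        change l (R 1 v) = l v
        congr 1
        apply Subtype.ext
        rw [hR, map_one, mul_one]
      mul_smul := by
        intro g h l
        refine LinearMap.ext fun v => ?_
        change l (R (g * h) v) = l (R h (R g v))
        congr 1
        apply Subtype.ext
        rw [hR, hR, hR, map_mul, mul_assoc] }
  have hsmul : ∀ (g : P) (l : Module.Dual (ZMod p) V) (v : V), (g • l) v = l (R g v) :=
    fun g l v => rfl
  have hfinD : Finite (Module.Dual (ZMod p) V) := Module.finite_of_finite (ZMod p)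
  have hdvd : p ∣ Nat.card (Module.Dual (ZMod p) V) := by
    rw [Module.natCard_eq_pow_finrank (K := ZMod p), Nat.card_zmod]
    refine dvd_pow_self p ?_
    rw [Subspace.dual_finrank_eq]
    exact (Module.finrank_pos (R := ZMod p) (M := V)).ne'
  obtain ⟨l, hl, hl0⟩ := hP.exists_fixed_point_of_prime_dvd_card_of_fixed_point
    (Module.Dual (ZMod p) V) hdvd (a := 0) (fun g => by
      refine LinearMap.ext fun v => ?_
      rw [hsmul]; rfl)
  -- `l` kills `V * Del = V`
  have hker : ∀ v : V, l v = 0 := by
    intro v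
    have hv : (v : MonoidAlgebra (ZMod p) P) ∈ V * Del (ZMod p) (⊤ : Subgroup P) := by
      have h1 := hk1.le v.2
      exact h1
    have hle : V * Del (ZMod p) (⊤ : Subgroup P) ≤ (LinearMap.ker l).map V.subtype := by
      rw [Submodule.mul_le]
      intro a ha b hb
      have h1 : Del (ZMod p) (⊤ : Subgroup P) ≤
          ((LinearMap.ker l).map V.subtype).comap (LinearMap.mulLeft (ZMod p) a) := by
        refine span_le.2 ?_
        rintro _ ⟨g, -, rfl⟩
        change a * (MonoidAlgebra.of (ZMod p) P g - 1) ∈ (LinearMap.ker l).map V.subtype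
        refine ⟨R g ⟨a, ha⟩ - ⟨a, ha⟩, ?_, ?_⟩
        · change l (R g ⟨a, ha⟩ - ⟨a, ha⟩) = 0
          rw [map_sub, ← hsmul, hl g, sub_self]
        · change ((R g ⟨a, ha⟩ - ⟨a, ha⟩ : V) : MonoidAlgebra (ZMod p) P) = _
          rw [Submodule.coe_sub, hR, mul_sub, mul_one]
      exact h1 hb
    obtain ⟨w, hw, hwv⟩ := hle hv
    have : w = v := Subtype.ext hwv
    rw [← this]
    exact hw
  exact hl0 (LinearMap.ext hker).symm

/-- Elements which survive in a finite `p`-quotient do not lie in all dimension subgroups. -/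
theorem exists_sub_one_notMem_J (p : ℕ) [Fact p.Prime] {P : Type*} [Group P] [Finite P]
    (hP : IsPGroup p P) (f : N →* P) (g : N) (hg : f g ≠ 1) :
    ∃ k, MonoidAlgebra.of (ZMod p) N g - 1 ∉ J (ZMod p) (⊤ : Subgroup N) k := by
  obtain ⟨k, hk⟩ := exists_J_eq_bot p P hP
  refine ⟨k, fun h => hg ?_⟩
  have h1 := map_J (ZMod p) f k (mem_map_of_mem h)
  rw [hk, Submodule.mem_bot] at h1
  have h2 : MonoidAlgebra.mapDomainAlgHom (ZMod p) (ZMod p) f
      (MonoidAlgebra.of (ZMod p) N g - 1) = MonoidAlgebra.of (ZMod p) P (f g) - 1 := by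
    rw [map_sub, map_one]
    simp
  have h3 : MonoidAlgebra.of (ZMod p) P (f g) = MonoidAlgebra.of (ZMod p) P 1 := by
    rw [map_one, ← sub_eq_zero, ← h2]
    exact h1
  exact MonoidAlgebra.of_injective h3

end nilpotent

section abelian

/-- A finitely generated abelian group is residually finite. -/
theorem exists_finiteIndex_of_comm {A : Type*} [CommGroup A] [Group.FG A] (a : A) (ha : a ≠ 1) :
    ∃ U : Subgroup A, U.FiniteIndex ∧ a ∉ U := by
  have hfg : Module.Finite ℤ (Additive A) := Module.Finite.iff_addGroup_fg.2 inferInstance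
  let m : Additive A := Additive.ofMul a
  have hm : m ≠ 0 := fun h => ha (Additive.ofMul.injective h)
  have h1 : LinearMap.ker (LinearMap.toSpanSingleton ℤ (Additive A) m) ≠ ⊤ := by
    intro h
    have : (1 : ℤ) ∈ LinearMap.ker (LinearMap.toSpanSingleton ℤ (Additive A) m) := by
      rw [h]; trivial
    simp at this
    exact hm this
  obtain ⟨I, hI, hIm⟩ := Ideal.exists_le_maximal _ h1
  have h2 : m ∉ (⨅ i : ℕ, I ^ i • ⊤ : Submodule ℤ (Additive A)) := by
    intro h
    obtain ⟨⟨r, hr⟩, hrm⟩ := (I.mem_iInf_smul_pow_eq_bot_iff m).1 h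
    have h3 : (1 - r) ∈ I := hIm (by
      simp only [LinearMap.mem_ker, LinearMap.toSpanSingleton_apply, sub_smul, one_smul]
      rw [hrm, sub_self])
    exact hI.ne_top ((Ideal.eq_top_iff_one _).2 (by simpa using I.add_mem h3 hr))
  rw [Submodule.mem_iInf] at h2
  push Not at h2
  obtain ⟨i, hi⟩ := h2
  have hI0 : I ≠ ⊥ := Ring.ne_bot_of_isMaximal_of_not_isField hI Int.not_isField
  have hfin : Finite (ℤ ⧸ I) := Ring.HasFiniteQuotients.finiteQuotient hI0
  have hfin2 : Finite (ℤ ⧸ I ^ i) := Ideal.finite_quotient_pow (IsNoetherian.noetherian I) i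
  have hfin3 : Finite (Additive A ⧸ (I ^ i • ⊤ : Submodule ℤ (Additive A))) :=
    Submodule.finite_quotient_smul (I ^ i) (N := (⊤ : Submodule ℤ (Additive A)))
      Module.Finite.fg_top
  let U : AddSubgroup (Additive A) := (I ^ i • ⊤ : Submodule ℤ (Additive A)).toAddSubgroup
  let f : A →* Multiplicative (Additive A ⧸ U) :=
    AddMonoidHom.toMultiplicativeRight (QuotientAddGroup.mk' U)
  have hfin4 : Finite (Multiplicative (Additive A ⧸ U)) := hfin3
  refine ⟨f.ker, inferInstance, ?_⟩
  intro h
  apply hi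
  have h5 : QuotientAddGroup.mk' U m = 0 := by
    have h6 : f a = 1 := h
    exact Multiplicative.ofAdd.injective h6
  exact (QuotientAddGroup.eq_zero_iff m).1 h5

end abelian

section assembly

variable {G : Type*} [Group G]

/-- Passing from a subgroup of finite index to the whole group. -/
theorem exists_finiteIndex_of_subgroup (H : Subgroup G) [hH : H.FiniteIndex] (g : G)
    (h : ∀ hg : g ∈ H, ∃ U : Subgroup H, U.FiniteIndex ∧ (⟨g, hg⟩ : H) ∉ U) :
    ∃ U : Subgroup G, U.FiniteIndex ∧ g ∉ U := by
  by_cases hg : g ∈ H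
  · obtain ⟨U, hU, hgU⟩ := h hg
    refine ⟨U.map H.subtype, ⟨?_⟩, ?_⟩
    · rw [Subgroup.index_map_subtype]
      exact mul_ne_zero hU.index_ne_zero hH.index_ne_zero
    · rintro ⟨x, hx, hxg⟩
      apply hgU
      have : x = ⟨g, hg⟩ := Subtype.ext hxg
      rwa [← this]
  · exact ⟨H, hH, hg⟩

/-- Passing from a quotient to the whole group. -/
theorem exists_finiteIndex_of_hom {K : Type*} [Group K] (f : G →* K) (g : G)
    (h : ∃ U : Subgroup K, U.FiniteIndex ∧ f g ∉ U) :
    ∃ U : Subgroup G, U.FiniteIndex ∧ g ∉ U := by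
  obtain ⟨U, hU, hgU⟩ := h
  refine ⟨U.comap f, ⟨?_⟩, hgU⟩
  rw [Subgroup.index_comap]
  exact (inferInstance : (U.subgroupOf f.range).FiniteIndex).index_ne_zero

/-- Finitely generated groups with finitely many commutators are residually finite. -/
theorem exists_finiteIndex_of_finite_commutatorSet [Group.FG G] [Finite (commutatorSet G)]
    (g : G) (hg : g ≠ 1) : ∃ U : Subgroup G, U.FiniteIndex ∧ g ∉ U := by
  refine exists_finiteIndex_of_subgroup (Subgroup.center G) g fun hgc => ?_
  exact exists_finiteIndex_of_comm (⟨g, hgc⟩ : Subgroup.center G)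
    (fun h => hg (congrArg Subtype.val h))

/-- The main theorem, for one element `g`. -/
theorem exists_finiteIndex_of_locallyFree [Group.FG G]
    (hfree : ∀ B : Subgroup (commutator G), B.FG → IsFreeGroup B) (g : G)
    (hg : ∀ h : g ∈ commutator G, ∃ (p : ℕ) (_ : Fact p.Prime) (k : ℕ),
      MonoidAlgebra.of (ZMod p) (commutator G) ⟨g, h⟩ - 1 ∉
        J (ZMod p) (⊤ : Subgroup (commutator G)) k) :
    ∃ U : Subgroup G, U.FiniteIndex ∧ g ∉ U := by
  by_cases hgN : g ∈ commutator G
  · obtain ⟨p, hp, k, hk⟩ := hg hgN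
    obtain ⟨W, hW⟩ := exists_finSub p (commutator G) le_rfl hfree k _ hk
    have hWn : W.W.Normal := W.normal
    have hgW : g ∉ W.W := by
      intro hgW
      apply hW
      exact mem_sup_left (sub_one_mem_IW (by
        rw [Subgroup.mem_subgroupOf]; exact hgW))
    have hfin : Finite (commutatorSet (G ⧸ W.W)) :=
      finite_commutatorSet (QuotientGroup.mk' W.W) (QuotientGroup.mk'_surjective W.W)
        (commutator G) W.W le_rfl (by rw [QuotientGroup.ker_mk']) W.fin
    refine exists_finiteIndex_of_hom (QuotientGroup.mk' W.W) g ?_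
    refine exists_finiteIndex_of_finite_commutatorSet _ ?_
    intro h
    exact hgW ((QuotientGroup.eq_one_iff g).1 h)
  · refine exists_finiteIndex_of_hom (Abelianization.of) g ?_
    have hfg : Group.FG (Abelianization G) := by
      have : Group.FG (G ⧸ commutator G) := inferInstance
      exact this
    refine exists_finiteIndex_of_comm _ ?_
    intro h
    apply hgN
    rw [← Abelianization.ker_of]
    exact h

/-- A nontrivial element of a finite nilpotent group survives in some quotient of prime power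
order. -/
theorem exists_pgroup_of_nilpotent.{u} {P : Type u} [Group P] [Finite P] [Group.IsNilpotent P] (x : P)
    (hx : x ≠ 1) : ∃ (p : ℕ) (_ : Fact p.Prime) (Q : Type u) (_ : Group Q) (_ : Finite Q)
      (f : P →* Q), IsPGroup p Q ∧ f x ≠ 1 := by
  obtain ⟨e⟩ := ((Group.isNilpotent_of_finite_tfae (G := P)).out 0 4).1 ‹_›
  have h1 : e.symm x ≠ 1 := fun h => hx (by
    rw [← e.apply_symm_apply x, h, map_one])
  obtain ⟨q, hq⟩ := Function.ne_iff.1 h1
  obtain ⟨S, hS⟩ := Function.ne_iff.1 hq
  have hqp : (q : ℕ).Prime := Nat.prime_of_mem_primeFactors q.2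
  refine ⟨q, ⟨hqp⟩, (S : Subgroup P), inferInstance, inferInstance,
    ((Pi.evalMonoidHom _ S).comp (Pi.evalMonoidHom _ q)).comp e.symm.toMonoidHom,
    S.isPGroup', ?_⟩
  exact hS

/-- **Theorem.** Let `G` be a finitely generated group whose commutator subgroup is locally free and
residually (finite nilpotent).  Then `G` is residually finite. -/
theorem exists_finiteIndex_main.{u} {G : Type u} [Group G] [Group.FG G]
    (hfree : ∀ B : Subgroup (commutator G), B.FG → IsFreeGroup B)
    (hres : ∀ g : commutator G, g ≠ 1 → ∃ (P : Type u) (_ : Group P) (_ : Finite P)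
      (_ : Group.IsNilpotent P) (f : commutator G →* P), f g ≠ 1) (g : G) (hg : g ≠ 1) :
    ∃ U : Subgroup G, U.FiniteIndex ∧ g ∉ U := by
  refine exists_finiteIndex_of_locallyFree hfree g fun h => ?_
  obtain ⟨P, _, _, _, f, hf⟩ := hres ⟨g, h⟩ (fun h' => hg (congrArg Subtype.val h'))
  obtain ⟨p, hp, Q, hQg, hQf, f', hQp, hfx⟩ := exists_pgroup_of_nilpotent (f ⟨g, h⟩) hf
  obtain ⟨k, hk⟩ := exists_sub_one_notMem_J p hQp (f'.comp f) ⟨g, h⟩ hfx
  exact ⟨p, hp, k, hk⟩

end assembly

end

end Pool.Agent.H91
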